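import Mathlib

set_option autoImplicit false

/-!
Auxiliary algebra: comparison of an algebraically independent family with a generating family, and
degenerations of points along valuation subrings.
-/

namespace Pool.Agent.WA

open MvPolynomial

/-- An algebraically independent family, all of whose members are algebraic over the subalgebra
generated by a finite set, is not larger than this set. -/
theorem card_le_of_algebraic {k Ω : Type*} [Field k] [Field Ω] [Algebra k Ω] {ι : Type*}
    [Fintype ι] (ξ : ι → Ω) (hξ : AlgebraicIndependent k ξ) (s : Finset Ω)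
    (hs : ∀ i, IsAlgebraic (Algebra.adjoin k (s : Set Ω)) (ξ i)) :
    Fintype.card ι ≤ s.card := by
  classical
  have hM := AlgebraicIndependent.matroid_closure_eq (R := k) (A := Ω) (s := (s : Set Ω))
  have hind : (AlgebraicIndependent.matroid k Ω).Indep (Set.range ξ) := by
    rw [AlgebraicIndependent.matroid_indep_iff]
    exact hξ.to_subtype_range
  have hsub : Set.range ξ ⊆ (AlgebraicIndependent.matroid k Ω).closure (s : Set Ω) := by
    rw [hM]
    rintro _ ⟨i, rfl⟩
    exact hs i
  have h1 : (Set.range ξ).encard ≤ ((s : Set Ω)).encard := by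
    calc (Set.range ξ).encard = (AlgebraicIndependent.matroid k Ω).eRk (Set.range ξ) :=
          hind.eRk_eq_encard.symm
      _ ≤ (AlgebraicIndependent.matroid k Ω).eRk
            ((AlgebraicIndependent.matroid k Ω).closure (s : Set Ω)) :=
          (AlgebraicIndependent.matroid k Ω).eRk_mono hsub
      _ = (AlgebraicIndependent.matroid k Ω).eRk (s : Set Ω) := Matroid.eRk_closure_eq _ _
      _ ≤ ((s : Set Ω)).encard := Matroid.eRk_le_encard _ _
  have h2 : (Set.range ξ).encard = (Fintype.card ι : ℕ∞) := by
    rw [← Set.image_univ, hξ.injective.encard_image, Set.encard_univ]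
    simp
  rw [h2, Set.encard_coe_eq_coe_finsetCard] at h1
  exact_mod_cast h1

/-- A non algebraic element is left out by a valuation subring containing the base field. -/
theorem exists_valuationSubring {Ω : Type*} [Field Ω] (F₀ : Subfield Ω) (u : Ω)
    (hu : ¬ IsAlgebraic F₀ u) :
    ∃ V : ValuationSubring Ω, (F₀ : Set Ω) ⊆ V ∧ u ∉ V := by
  by_contra hcon
  push Not at hcon
  have h1 : u ∈ (⨅ V : {V : ValuationSubring Ω // (F₀ : Set Ω) ⊆ V.toSubring}, V.1.toSubring) := by
    rw [Subring.mem_iInf]
    intro V
    exact hcon V.1 V.2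
  rw [iInf_valuationSubring_superset] at h1
  apply hu
  have h2 : IsIntegral (Subring.closure (F₀ : Set Ω)) u := h1
  have h3 : Subring.closure (F₀ : Set Ω) = F₀.toSubring := Subring.closure_eq F₀.toSubring
  obtain ⟨p, hp, hpu⟩ := h2
  refine ⟨p.map (Subring.inclusion h3.le), (hp.map _).ne_zero, ?_⟩
  rw [Polynomial.aeval_def, Polynomial.eval₂_map]
  exact hpu

/-- Evaluation of a homogeneous polynomial at a scaled point. -/
theorem aeval_smul_of_homogeneous {k A σ : Type*} [CommSemiring k] [CommSemiring A] [Algebra k A]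
    {f : MvPolynomial σ k} {e : ℕ} (hf : f.IsHomogeneous e) (c : A) (y : σ → A) :
    aeval (fun l => c * y l) f = c ^ e * aeval y f := by
  classical
  rw [aeval_def, aeval_def, eval₂_eq, eval₂_eq, Finset.mul_sum]
  refine Finset.sum_congr rfl fun d hd => ?_
  have hdeg : ∑ i ∈ d.support, d i = e := by
    have := hf (mem_support_iff.mp hd)
    rw [← this]
    simp [Finsupp.weight_apply, Finsupp.sum]
  simp_rw [mul_pow]
  rw [Finset.prod_mul_distrib, Finset.prod_pow_eq_pow_sum, hdeg]
  ring

/-- Degeneration of a point along a valuation: homogeneous relations of mixed degrees, with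
coefficients in a field over which the point is not algebraic, degenerate to their top part. -/
theorem exists_degeneration {k Ω : Type} [Field k] [Field Ω] [Algebra k Ω] {σ : Type} [Finite σ]
    (F₀ : IntermediateField k Ω) (u : σ → Ω) (hu : ∃ l, ¬ IsAlgebraic F₀ (u l)) :
    ∃ (κ : Type) (_ : Field κ) (_ : Algebra k κ) (w : σ → κ), w ≠ 0 ∧
      ∀ (e : ℕ) (f : MvPolynomial σ k), f.IsHomogeneous e →
        ∀ (ν : Type) [Fintype ν] (α : ν → Ω) (_ : ∀ a, α a ∈ F₀) (p : ν → MvPolynomial σ k)
          (ep : ν → ℕ), (∀ a, (p a).IsHomogeneous (ep a)) → (∀ a, ep a < e) →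
          aeval u f = ∑ a, α a * aeval u (p a) → aeval w f = 0 := by
  classical
  obtain ⟨l₀, hl₀⟩ := hu
  have hl₀' : ¬ IsAlgebraic F₀.toSubfield (u l₀) := hl₀
  obtain ⟨V, hV, hlV⟩ := exists_valuationSubring F₀.toSubfield (u l₀) hl₀'
  have : Nonempty σ := ⟨l₀⟩
  obtain ⟨l₁, hl₁⟩ := Finite.exists_max (fun l => V.valuation (u l))
  have hgt : 1 < V.valuation (u l₁) := by
    have h1 : 1 < V.valuation (u l₀) := by
      rw [← not_le, ValuationSubring.valuation_le_one_iff]; exact hlV
    exact h1.trans_le (hl₁ l₀)
  have hne : u l₁ ≠ 0 := by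
    rintro h0
    rw [h0, map_zero] at hgt
    exact absurd hgt (by simp)
  set s : Ω := u l₁ with hs
  have hsV : V.valuation s⁻¹ < 1 := by
    rw [map_inv₀]
    exact inv_lt_one_of_one_lt₀ hgt
  have hymem : ∀ l, s⁻¹ * u l ∈ V := by
    intro l
    rw [← ValuationSubring.valuation_le_one_iff, map_mul, map_inv₀]
    exact inv_mul_le_one_of_le₀ (hl₁ l) (by simp)
  have hkV : ∀ a : k, algebraMap k Ω a ∈ V := fun a => hV (F₀.algebraMap_mem a)
  let ik : k →+* V := (algebraMap k Ω).codRestrict V.toSubring hkV
  let _ : Algebra k V := ik.toAlgebra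
  let κ := IsLocalRing.ResidueField V
  let _ : Algebra k κ := ((IsLocalRing.residue V).comp ik).toAlgebra
  let y : σ → V := fun l => ⟨s⁻¹ * u l, hymem l⟩
  refine ⟨κ, inferInstance, inferInstance, fun l => IsLocalRing.residue V (y l), ?_, ?_⟩
  · intro h0
    have h1 := congrFun h0 l₁
    have h2 : y l₁ = 1 := by
      apply Subtype.ext
      change s⁻¹ * u l₁ = 1
      rw [← hs, inv_mul_cancel₀ hne]
    simp [h2] at h1
  · intro e f hf ν _ α hα p ep hp hep hrel
    have hsub : ∀ q : MvPolynomial σ k, ((aeval y q : V) : Ω) = aeval (fun l => s⁻¹ * u l) q := by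
      intro q
      induction q using MvPolynomial.induction_on with
      | C a => simp only [aeval_C]; rfl
      | add p q hp hq => simp only [map_add]; rw [← hp, ← hq]; rfl
      | mul_X p n hp => simp only [map_mul, aeval_X]; rw [← hp]; rfl
    have hres : ∀ q : MvPolynomial σ k, aeval (fun l => IsLocalRing.residue V (y l)) q
        = IsLocalRing.residue V (aeval y q) := by
      intro q
      induction q using MvPolynomial.induction_on with
      | C a => simp only [aeval_C]; rfl
      | add p q hp hq => simp only [map_add, hp, hq]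
      | mul_X p n hp => simp only [map_mul, aeval_X, hp]
    rw [hres]
    rw [IsLocalRing.residue_eq_zero_iff]
    rw [ValuationSubring.valuation_lt_one_iff, hsub, aeval_smul_of_homogeneous hf, hrel,
      Finset.mul_sum]
    apply Valuation.map_sum_lt _ one_ne_zero
    intro a _
    have h1 : aeval u (p a) = s ^ (ep a) * aeval (fun l => s⁻¹ * u l) (p a) := by
      rw [← aeval_smul_of_homogeneous (hp a)]
      congr 2
      funext l
      rw [← mul_assoc, mul_inv_cancel₀ hne, one_mul]
    have h2 : s⁻¹ ^ e * (α a * aeval u (p a)) =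
        s⁻¹ ^ (e - ep a) * (α a * aeval (fun l => s⁻¹ * u l) (p a)) := by
      rw [h1]
      have : s⁻¹ ^ e = s⁻¹ ^ (e - ep a) * s⁻¹ ^ ep a := by
        rw [← pow_add]; congr 1; have := hep a; omega
      rw [this]
      have h3 : s⁻¹ ^ ep a * s ^ ep a = 1 := by
        rw [← mul_pow, inv_mul_cancel₀ hne, one_pow]
      calc s⁻¹ ^ (e - ep a) * s⁻¹ ^ ep a * (α a * (s ^ ep a * aeval (fun l => s⁻¹ * u l) (p a)))
          = (s⁻¹ ^ ep a * s ^ ep a) * (s⁻¹ ^ (e - ep a) *
              (α a * aeval (fun l => s⁻¹ * u l) (p a))) := by ring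
        _ = _ := by rw [h3, one_mul]
    rw [h2, map_mul, map_mul, map_pow]
    have h3 : V.valuation s⁻¹ ^ (e - ep a) < 1 := by
      apply pow_lt_one₀ (by simp) hsV
      have := hep a; omega
    have h4 : V.valuation (α a) ≤ 1 := by
      rw [ValuationSubring.valuation_le_one_iff]; exact hV (hα a)
    have h5 : V.valuation (aeval (fun l => s⁻¹ * u l) (p a)) ≤ 1 := by
      rw [← hsub, ValuationSubring.valuation_le_one_iff]; exact (aeval y (p a) : V).2
    calc V.valuation s⁻¹ ^ (e - ep a) * (V.valuation (α a) *
          V.valuation (aeval (fun l => s⁻¹ * u l) (p a)))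
        ≤ V.valuation s⁻¹ ^ (e - ep a) * 1 := by
          gcongr
          exact mul_le_one' h4 h5
      _ < 1 := by rw [mul_one]; exact h3

/-- Fewer forms than variables over an algebraically closed field have a common nontrivial zero. -/
theorem exists_common_zero {k : Type} [Field k] [IsAlgClosed k] {σ ι : Type} [Fintype σ]
    [Fintype ι] (f : ι → MvPolynomial σ k) (d : ι → ℕ) (hd : ∀ i, 0 < d i)
    (hf : ∀ i, (f i).IsHomogeneous (d i)) (hcard : Fintype.card ι < Fintype.card σ) :
    ∃ x : σ → k, x ≠ 0 ∧ ∀ i, eval x (f i) = 0 := by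
  classical
  by_contra hcon
  push Not at hcon
  let Ω := FractionRing (MvPolynomial σ k)
  let u : σ → Ω := fun l => algebraMap (MvPolynomial σ k) Ω (X l)
  have hu : AlgebraicIndependent k u := by
    have h1 : AlgebraicIndependent k (X : σ → MvPolynomial σ k) := algebraicIndependent_X σ k
    exact h1.map' (f := IsScalarTower.toAlgHom k (MvPolynomial σ k) Ω)
      (IsFractionRing.injective (MvPolynomial σ k) Ω)
  let s : Finset Ω := Finset.univ.image (fun i => aeval u (f i))
  let F₀ : IntermediateField k Ω := IntermediateField.adjoin k (s : Set Ω)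
  have hex : ∃ l, ¬ IsAlgebraic F₀ (u l) := by
    by_contra hall
    push Not at hall
    have h1 : ∀ l, IsAlgebraic (Algebra.adjoin k (s : Set Ω)) (u l) := by
      intro l
      exact IntermediateField.isAlgebraic_adjoin_iff.mp (hall l)
    have h2 := card_le_of_algebraic u hu s h1
    have h3 : s.card ≤ Fintype.card ι := Finset.card_image_le
    omega
  obtain ⟨κ, _, _, w, hw, hdeg⟩ := exists_degeneration F₀ u hex
  have hzero : ∀ i, aeval w (f i) = 0 := by
    intro i
    refine hdeg (d i) (f i) (hf i) Unit (fun _ => aeval u (f i)) ?_ (fun _ => 1) (fun _ => 0)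
      (fun _ => isHomogeneous_one σ k) (fun _ => hd i) ?_
    · intro _
      apply IntermediateField.subset_adjoin
      simp [s]
    · simp
  -- Nullstellensatz
  let I : Ideal (MvPolynomial σ k) := Ideal.span (Set.range f)
  apply hw
  funext l
  have hXl : (X l : MvPolynomial σ k) ∈ I.radical := by
    rw [← vanishingIdeal_zeroLocus_eq_radical (K := k), mem_vanishingIdeal_iff]
    intro x hx
    by_cases hx0 : x = 0
    · simp [hx0]
    · exfalso
      obtain ⟨i, hi⟩ := hcon x hx0
      apply hi
      have := hx (f i) (Ideal.subset_span ⟨i, rfl⟩)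
      simpa using this
  obtain ⟨N, hN⟩ := hXl
  have hIw : ∀ q ∈ I, aeval w q = 0 := by
    intro q hq
    have : I ≤ RingHom.ker (aeval w : MvPolynomial σ k →ₐ[k] κ).toRingHom := by
      rw [Ideal.span_le]
      rintro _ ⟨i, rfl⟩
      exact hzero i
    exact this hq
  have h5 := hIw _ hN
  rw [map_pow, aeval_X] at h5
  exact eq_zero_of_pow_eq_zero h5

end Pool.Agent.WA
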