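import Mathlib
import Pool.Agent.WA.Valuative

set_option autoImplicit false

/-!
Solutions of algebraic systems on generic linear sections, by a reduced power of the base field.
-/

namespace Pool.Agent.WA

open MvPolynomial

theorem aeval_quotient_pi {I K τ : Type} [Field K] (m : Ideal (I → K)) (g : τ → I → K)
    (p : MvPolynomial τ K) :
    aeval (fun x => Ideal.Quotient.mk m (g x)) p =
      Ideal.Quotient.mk m (fun i => eval (fun x => g x i) p) := by
  induction p using MvPolynomial.induction_on with
  | C a =>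
    simp only [aeval_C, eval_C]
    rfl
  | add p q hp hq =>
    rw [map_add, hp, hq, ← map_add]
    congr 1
    funext i
    simp
  | mul_X p x hp =>
    rw [map_mul, hp, aeval_X, ← map_mul]
    congr 1
    funext i
    simp

/-- If a system of polynomial relations in `(u, α)` is solvable with `u` on every linear section of
codimension `r`, then it is solvable over an extension field on a generic linear section. -/
theorem exists_generic {K σ ν : Type} [Field K] [Infinite K] [Fintype σ]
    (r : ℕ) (P : Set (MvPolynomial (σ ⊕ ν) K))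
    (h : ∀ ξ : Fin r × σ → K, ∃ (u : σ → K) (α : ν → K), (∃ l, u l = 1) ∧
      (∀ a, ∑ l, ξ (a, l) * u l = 0) ∧ ∀ p ∈ P, eval (Sum.elim u α) p = 0) :
    ∃ (Ω : Type) (_ : Field Ω) (_ : Algebra K Ω) (ξ : Fin r × σ → Ω) (u : σ → Ω) (α : ν → Ω),
      AlgebraicIndependent K ξ ∧ (∃ l, u l = 1) ∧ (∀ a, ∑ l, ξ (a, l) * u l = 0) ∧
      ∀ p ∈ P, aeval (Sum.elim u α) p = 0 := by
  classical
  let I := Finset {p : MvPolynomial (Fin r × σ) K // p ≠ 0}
  have hξ : ∀ i : I, ∃ ξ : Fin r × σ → K, ∀ p ∈ i, eval ξ p.1 ≠ 0 := by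
    intro i
    have h1 : (∏ p ∈ i, p.1) ≠ 0 := Finset.prod_ne_zero_iff.mpr fun p _ => p.2
    by_contra hcon
    push Not at hcon
    apply h1
    apply MvPolynomial.funext
    intro x
    obtain ⟨p, hp, hp0⟩ := hcon x
    rw [map_zero, map_prod]
    exact Finset.prod_eq_zero hp hp0
  choose ξ hξ using hξ
  choose u α hu hsec hP using fun i : I => h (ξ i)
  let J : Ideal (I → K) :=
    { carrier := {f | ∃ i₀ : I, ∀ i, i₀ ⊆ i → f i = 0}
      add_mem' := by
        rintro f g ⟨i₀, hi₀⟩ ⟨j₀, hj₀⟩
        refine ⟨i₀ ∪ j₀, fun i hi => ?_⟩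
        rw [Pi.add_apply, hi₀ i (Finset.union_subset_left hi), hj₀ i (Finset.union_subset_right hi),
          add_zero]
      zero_mem' := ⟨∅, fun i _ => rfl⟩
      smul_mem' := by
        rintro c f ⟨i₀, hi₀⟩
        refine ⟨i₀, fun i hi => ?_⟩
        rw [smul_eq_mul, Pi.mul_apply, hi₀ i hi, mul_zero] }
  have hJ : J ≠ ⊤ := by
    intro hJ
    have : (1 : I → K) ∈ J := by rw [hJ]; trivial
    obtain ⟨i₀, hi₀⟩ := this
    exact one_ne_zero (hi₀ i₀ subset_rfl)
  obtain ⟨m, hm, hJm⟩ := Ideal.exists_le_maximal J hJ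
  let _ : Field ((I → K) ⧸ m) := Ideal.Quotient.field m
  have hzero : ∀ f : I → K, (∀ i, f i = 0) → Ideal.Quotient.mk m f = 0 := by
    intro f hf
    rw [show f = 0 from funext hf, map_zero]
  refine ⟨(I → K) ⧸ m, inferInstance, inferInstance,
    fun x => Ideal.Quotient.mk m (fun i => ξ i x), fun l => Ideal.Quotient.mk m (fun i => u i l),
    fun c => Ideal.Quotient.mk m (fun i => α i c), ?_, ?_, ?_, ?_⟩
  · rw [algebraicIndependent_iff]
    intro p hp
    by_contra hp0
    rw [aeval_quotient_pi, Ideal.Quotient.eq_zero_iff_mem] at hp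
    have h1 : (1 : I → K) ∈ m := by
      have h2 : (fun i => (eval (fun x => ξ i x) p)⁻¹) * (fun i => eval (fun x => ξ i x) p) ∈ m :=
        Ideal.mul_mem_left _ _ hp
      have h3 : (1 : I → K) - (fun i => (eval (fun x => ξ i x) p)⁻¹) *
          (fun i => eval (fun x => ξ i x) p) ∈ m := by
        apply hJm
        refine ⟨{⟨p, hp0⟩}, fun i hi => ?_⟩
        have h4 := hξ i ⟨p, hp0⟩ (hi (Finset.mem_singleton_self _))
        simp only [Pi.sub_apply, Pi.one_apply, Pi.mul_apply]
        rw [inv_mul_cancel₀ h4, sub_self]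
      have h5 := m.add_mem h3 h2
      rwa [sub_add_cancel] at h5
    exact hm.ne_top ((Ideal.eq_top_iff_one m).mpr h1)
  · have h1 : ∏ l, (Ideal.Quotient.mk m (fun i => u i l) - 1) = 0 := by
      rw [← map_one (Ideal.Quotient.mk m)]
      simp_rw [← map_sub]
      rw [← map_prod]
      apply hzero
      intro i
      rw [Finset.prod_apply]
      obtain ⟨l, hl⟩ := hu i
      exact Finset.prod_eq_zero (Finset.mem_univ l) (by simp [hl])
    obtain ⟨l, _, hl⟩ := Finset.prod_eq_zero_iff.mp h1
    exact ⟨l, sub_eq_zero.mp hl⟩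
  · intro a
    simp_rw [← map_mul]
    rw [← map_sum]
    apply hzero
    intro i
    rw [Finset.sum_apply]
    exact hsec i a
  · intro p hp
    have h1 : (Sum.elim (fun l => Ideal.Quotient.mk m (fun i => u i l))
        (fun c => Ideal.Quotient.mk m (fun i => α i c)) : σ ⊕ ν → (I → K) ⧸ m) =
        fun x => Ideal.Quotient.mk m (fun i => Sum.elim (u i) (α i) x) := by
      funext x
      cases x <;> rfl
    rw [h1, aeval_quotient_pi]
    apply hzero
    intro i
    exact hP i p hp

/-- On a generic linear section of codimension `r`, the coordinates of a point normalised by one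
coordinate are not all algebraic over a field generated by less than `r` elements. -/
theorem exists_not_algebraic {K Ω σ ν : Type} [Field K] [Field Ω] [Algebra K Ω] [Fintype σ]
    [Fintype ν] (r : ℕ) (hr : Fintype.card ν < r) (ξ : Fin r × σ → Ω)
    (hξ : AlgebraicIndependent K ξ) (u : σ → Ω) (l₀ : σ) (hl₀ : u l₀ = 1)
    (hsec : ∀ a, ∑ l, ξ (a, l) * u l = 0) (α : ν → Ω) :
    ∃ l, ¬ IsAlgebraic (IntermediateField.adjoin K (Set.range α)) (u l) := by
  classical
  by_contra hcon
  push Not at hcon
  let s₁ : Finset Ω := Finset.univ.image α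
  let s₂ : Finset Ω := (Finset.univ.filter (fun x : Fin r × σ => x.2 ≠ l₀)).image ξ
  let s : Finset Ω := s₁ ∪ s₂
  have hs : s.card ≤ Fintype.card ν + r * (Fintype.card σ - 1) := by
    refine (Finset.card_union_le _ _).trans ?_
    have h1 : s₁.card ≤ Fintype.card ν := Finset.card_image_le
    have h2 : s₂.card ≤ r * (Fintype.card σ - 1) := by
      refine Finset.card_image_le.trans ?_
      have h3 : (Finset.univ.filter (fun x : Fin r × σ => x.2 ≠ l₀)) =
          (Finset.univ : Finset (Fin r)) ×ˢ (Finset.univ.erase l₀) := by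
        ext x
        simp
      rw [h3, Finset.card_product, Finset.card_erase_of_mem (Finset.mem_univ _)]
      simp
    omega
  have halg : ∀ x, IsAlgebraic (Algebra.adjoin K (s : Set Ω)) (ξ x) := by
    have hsub : IntermediateField.adjoin K (Set.range α) ≤ IntermediateField.adjoin K (s : Set Ω) := by
      apply IntermediateField.adjoin.mono
      rintro _ ⟨c, rfl⟩
      simp [s, s₁]
    have hu' : ∀ l, IsAlgebraic (IntermediateField.adjoin K (s : Set Ω)) (u l) := by
      intro l
      obtain ⟨p, hp, hp0⟩ := hcon l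
      refine ⟨p.map (IntermediateField.inclusion hsub).toRingHom, ?_, ?_⟩
      · exact (Polynomial.map_ne_zero_iff (IntermediateField.inclusion hsub).toRingHom.injective).mpr hp
      · rw [Polynomial.aeval_def, Polynomial.eval₂_map]
        exact hp0
    have hmem : ∀ a l, l ≠ l₀ →
        IsAlgebraic (IntermediateField.adjoin K (s : Set Ω)) (ξ (a, l)) := by
      intro a l hl
      have h1 : ξ (a, l) ∈ IntermediateField.adjoin K (s : Set Ω) := by
        apply IntermediateField.subset_adjoin
        have : ξ (a, l) ∈ s₂ := Finset.mem_image.mpr ⟨(a, l), by simp [hl], rfl⟩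
        simp [s, this]
      exact isAlgebraic_algebraMap (⟨_, h1⟩ : IntermediateField.adjoin K (s : Set Ω))
    rintro ⟨a, l⟩
    apply IntermediateField.isAlgebraic_adjoin_iff.mp
    by_cases hl : l = l₀
    · subst hl
      have h1 : ξ (a, l) = - ∑ l' ∈ Finset.univ.erase l, ξ (a, l') * u l' := by
        have h2 := hsec a
        rw [← Finset.add_sum_erase _ _ (Finset.mem_univ l), hl₀, mul_one] at h2
        exact eq_neg_of_add_eq_zero_left h2
      rw [h1]
      apply IsAlgebraic.neg
      rw [← mem_algebraicClosure_iff]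
      apply sum_mem
      intro l' hl'
      rw [mem_algebraicClosure_iff]
      exact (hmem a l' (Finset.ne_of_mem_erase hl')).mul (hu' l')
    · exact hmem a l hl
  have h1 := card_le_of_algebraic ξ hξ s halg
  rw [Fintype.card_prod, Fintype.card_fin] at h1
  have h2 : 0 < Fintype.card σ := Fintype.card_pos_iff.mpr ⟨l₀⟩
  have h3 : r * Fintype.card σ = r * (Fintype.card σ - 1) + r := by
    obtain ⟨c, hc⟩ : ∃ c, Fintype.card σ = c + 1 := ⟨Fintype.card σ - 1, by omega⟩
    rw [hc]
    simp [mul_add]
  omega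

end Pool.Agent.WA
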