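import Mathlib
import Pool.Agent.WA.Valuative

set_option autoImplicit false

/-!
Homogeneous polynomial functions, and the theorem of Tsen and Lang for systems of forms over the
function field of a curve over an algebraically closed field.
-/

namespace Pool.Agent.WA

open MvPolynomial

/-- Homogeneous polynomial functions of degree `d` on a vector space: sums of products of `d`
linear functionals with scalar coefficients. -/
inductive IsForm (K : Type) {V : Type} [Field K] [AddCommGroup V] [Module K V] :
    ℕ → (V → K) → Prop
  | const (c : K) : IsForm K 0 (fun _ => c)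
  | add {d : ℕ} {f g : V → K} : IsForm K d f → IsForm K d g → IsForm K d (fun v => f v + g v)
  | mul {d : ℕ} {f : V → K} (l : V →ₗ[K] K) : IsForm K d f →
      IsForm K (d + 1) (fun v => l v * f v)

namespace IsForm

variable {K : Type} [Field K] {V W : Type} [AddCommGroup V] [Module K V] [AddCommGroup W]
  [Module K W]

theorem zero (d : ℕ) : IsForm K d (fun _ : V => (0 : K)) := by
  induction d with
  | zero => exact const 0
  | succ d ih =>
    have := ih.mul (0 : V →ₗ[K] K)
    simpa using this

theorem smul {d : ℕ} {f : V → K} (c : K) (hf : IsForm K d f) : IsForm K d (fun v => c * f v) := by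
  induction hf with
  | const a => exact const (c * a)
  | add _ _ h1 h2 =>
    have := h1.add h2
    simpa only [mul_add] using this
  | mul l _ h =>
    have := h.mul l
    simpa only [mul_left_comm] using this

theorem comp {d : ℕ} {f : V → K} (hf : IsForm K d f) (φ : W →ₗ[K] V) :
    IsForm K d (fun w => f (φ w)) := by
  induction hf with
  | const a => exact const a
  | add _ _ h1 h2 => exact h1.add h2
  | mul l _ h => exact h.mul (l.comp φ)

theorem linear (l : V →ₗ[K] K) : IsForm K 1 (fun v => l v) := by
  have := (const (V := V) (1 : K)).mul l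
  simpa using this

theorem mul' {d e : ℕ} {f g : V → K} (hf : IsForm K d f) (hg : IsForm K e g) :
    IsForm K (d + e) (fun v => f v * g v) := by
  induction hf with
  | const a => simpa using hg.smul a
  | add _ _ h1 h2 =>
    have := h1.add h2
    simpa only [add_mul] using this
  | @mul d f l _ h =>
    have := h.mul l
    have h2 : d + 1 + e = d + e + 1 := by ring
    rw [h2]
    simpa only [mul_assoc] using this

theorem sum {d : ℕ} {ι : Type*} (s : Finset ι) {f : ι → V → K} (hf : ∀ i ∈ s, IsForm K d (f i)) :
    IsForm K d (fun v => ∑ i ∈ s, f i v) := by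
  classical
  induction s using Finset.induction_on with
  | empty => simpa using zero (V := V) (K := K) d
  | insert i s hi ih =>
    have h1 := (hf i (Finset.mem_insert_self i s)).add
      (ih (fun j hj => hf j (Finset.mem_insert_of_mem hj)))
    simpa only [Finset.sum_insert hi] using h1

theorem map_smul {d : ℕ} {f : V → K} (hf : IsForm K d f) (c : K) (v : V) :
    f (c • v) = c ^ d * f v := by
  induction hf with
  | const a => simp
  | add _ _ h1 h2 => beta_reduce; rw [h1, h2]; ring
  | mul l _ h => beta_reduce; rw [h, _root_.map_smul, smul_eq_mul]; ring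

theorem of_mvPolynomial {σ : Type} {d : ℕ} {p : MvPolynomial σ K} (hp : p.IsHomogeneous d) :
    IsForm K d (fun x : σ → K => eval x p) := by
  classical
  have h1 : ∀ m : σ →₀ ℕ, IsForm K m.degree (fun x : σ → K => ∏ i ∈ m.support, x i ^ m i) := by
    intro m
    induction m using Finsupp.induction with
    | zero => simpa using const (V := σ → K) (1 : K)
    | single_add a n m ha hn ih =>
      have h2 : IsForm K n (fun x : σ → K => x a ^ n) := by
        clear hn
        induction n with
        | zero => simpa using const (V := σ → K) (1 : K)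
        | succ n ihn =>
          have := ihn.mul (LinearMap.proj a)
          simpa [pow_succ'] using this
      have h3 := h2.mul' ih
      have h4 : (Finsupp.single a n + m).degree = n + m.degree := by simp [map_add]
      rw [h4]
      convert h3 using 2 with x
      have h5 := Finsupp.prod_add_index' (f := Finsupp.single a n) (g := m)
        (h := fun i e => x i ^ e) (by simp) (by intro i e1 e2; exact pow_add _ _ _)
      simp only [Finsupp.prod] at h5
      rw [h5]
      congr 1
      by_cases hn0 : n = 0
      · simp [hn0]
      · rw [Finsupp.support_single _ hn0]; simp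
  have h2 : IsForm K d (fun x : σ → K => ∑ m ∈ p.support, coeff m p * ∏ i ∈ m.support, x i ^ m i) := by
    apply sum
    intro m hm
    have h3 := (h1 m).smul (coeff m p)
    have h4 : m.degree = d := by
      have := hp (mem_support_iff.mp hm)
      rw [Finsupp.degree_eq_weight_one]
      exact this
    rwa [h4] at h3
  convert h2 using 2 with x
  rw [eval_eq]

theorem exists_mvPolynomial {σ : Type} [Fintype σ] {d : ℕ} {f : (σ → K) → K}
    (hf : IsForm K d f) : ∃ p : MvPolynomial σ K, p.IsHomogeneous d ∧ ∀ x, f x = eval x p := by
  classical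
  induction hf with
  | const a => exact ⟨C a, isHomogeneous_C σ a, by simp⟩
  | add _ _ h1 h2 =>
    obtain ⟨p, hp, hpe⟩ := h1
    obtain ⟨q, hq, hqe⟩ := h2
    exact ⟨p + q, hp.add hq, by intro x; beta_reduce; rw [hpe, hqe, map_add]⟩
  | @mul d f l _ h =>
    obtain ⟨p, hp, hpe⟩ := h
    refine ⟨(∑ i, C (l (Pi.single i 1)) * X i) * p, ?_, ?_⟩
    · rw [add_comm]
      refine IsHomogeneous.mul ?_ hp
      apply IsHomogeneous.sum
      intro i _
      have := (isHomogeneous_C σ (l (Pi.single i 1))).mul (isHomogeneous_X K i)
      simpa using this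
    · intro x
      beta_reduce
      rw [map_mul, ← hpe, map_sum]
      congr 1
      have h3 : x = ∑ i, x i • (Pi.single i (1 : K) : σ → K) := by
        funext j
        simp [Finset.sum_apply, Pi.single_apply]
      conv_lhs => rw [h3]
      rw [map_sum]
      refine Finset.sum_congr rfl fun i _ => ?_
      rw [_root_.map_smul, smul_eq_mul, map_mul, eval_C, eval_X, mul_comm]

end IsForm

/-- Fewer forms than variables over an algebraically closed field: common nontrivial zero. -/
theorem exists_common_zero_form {k : Type} [Field k] [IsAlgClosed k] {σ ι : Type} [Fintype σ]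
    [Fintype ι] (f : ι → (σ → k) → k) (d : ι → ℕ) (hd : ∀ i, 0 < d i)
    (hf : ∀ i, IsForm k (d i) (f i)) (hcard : Fintype.card ι < Fintype.card σ) :
    ∃ x : σ → k, x ≠ 0 ∧ ∀ i, f i x = 0 := by
  choose p hp hpe using fun i => (hf i).exists_mvPolynomial
  obtain ⟨x, hx, hx0⟩ := exists_common_zero p d hd hp hcard
  exact ⟨x, hx, fun i => by rw [hpe]; exact hx0 i⟩

/-- The property that every finite system of forms of positive degrees, whose degrees add up to less
than the number of variables, has a common nontrivial zero. -/
def C1 (K : Type) [Field K] : Prop :=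
  ∀ (σ ι : Type) [Fintype σ] [Fintype ι] (f : ι → (σ → K) → K) (d : ι → ℕ), (∀ i, 0 < d i) →
    (∀ i, IsForm K (d i) (f i)) → ∑ i, d i < Fintype.card σ → ∃ x : σ → K, x ≠ 0 ∧ ∀ i, f i x = 0

/-- Components of a form over a finite extension are forms over the base field. -/
theorem IsForm.restrictScalars {K L V : Type} [Field K] [Field L] [Algebra K L]
    [FiniteDimensional K L] [AddCommGroup V] [Module K V] [Module L V] [IsScalarTower K L V]
    {d : ℕ} {f : V → L} (hf : IsForm L d f) :
    ∀ (φ : L →ₗ[K] K), IsForm K d (fun v => φ (f v)) := by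
  classical
  induction hf with
  | const a => intro φ; exact IsForm.const (φ a)
  | add _ _ h1 h2 =>
    intro φ
    have := (h1 φ).add (h2 φ)
    simpa only [map_add] using this
  | @mul d f l _ h =>
    intro φ
    let b := Module.finBasis K L
    have h1 : IsForm K (d + 1) (fun v => ∑ c, (b.coord c ∘ₗ (l.restrictScalars K)) v *
        (φ ∘ₗ LinearMap.mulLeft K (b c)) (f v)) :=
      IsForm.sum _ fun c _ => (h _).mul _
    convert h1 using 2 with v
    beta_reduce
    have h2 : l v = ∑ c, b.repr (l v) c • b c := (b.sum_repr (l v)).symm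
    conv_lhs => rw [h2]
    rw [Finset.sum_mul, map_sum]
    refine Finset.sum_congr rfl fun c _ => ?_
    simp

theorem C1.of_finite {K L : Type} [Field K] [Field L] [Algebra K L] [FiniteDimensional K L]
    (hK : C1 K) : C1 L := by
  classical
  intro σ ι _ _ f d hd hf hcard
  let b := Module.finBasis K L
  set m := Module.finrank K L with hm
  have hmpos : 0 < m := Module.finrank_pos
  let Φ : ((σ × Fin m) → K) →ₗ[K] (σ → L) :=
    { toFun := fun y s => ∑ c, y (s, c) • b c
      map_add' := by
        intro y z; funext s
        simp [add_smul, Finset.sum_add_distrib]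
      map_smul' := by
        intro a y; funext s
        simp [Finset.smul_sum, mul_smul] }
  obtain ⟨y, hy, hy0⟩ := hK (σ × Fin m) (ι × Fin m)
    (fun i y => b.coord i.2 (f i.1 (Φ y))) (fun i => d i.1) (fun i => hd i.1)
    (fun i => ((hf i.1).restrictScalars (b.coord i.2)).comp Φ)
    (by
      rw [Fintype.sum_prod_type]
      simp only [Finset.sum_const, Finset.card_univ, Fintype.card_fin, smul_eq_mul,
        Fintype.card_prod]
      rw [← Finset.mul_sum, mul_comm]
      exact Nat.mul_lt_mul_of_pos_right hcard hmpos)
  refine ⟨Φ y, ?_, ?_⟩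
  · intro h0
    apply hy
    funext sc
    obtain ⟨s, c⟩ := sc
    have h1 := congrFun h0 s
    have h2 : ∑ c, y (s, c) • b c = 0 := h1
    have h3 := Fintype.linearIndependent_iff.mp b.linearIndependent (fun c => y (s, c)) h2 c
    exact h3
  · intro i
    have h1 : ∀ c, b.repr (f i (Φ y)) c = 0 := fun c => hy0 (i, c)
    have h2 : b.repr (f i (Φ y)) = 0 := Finsupp.ext h1
    simpa using h2

section RatFunc

open Polynomial in
/-- The inclusion of vectors of polynomials of bounded degree in vectors of rational functions. -/
noncomputable def polyVec (k : Type) [Field k] (σ : Type) (M : ℕ) :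
    ((σ × Fin (M + 1)) → k) → (σ → RatFunc k) :=
  fun a s => algebraMap k[X] (RatFunc k) (∑ l : Fin (M + 1), Polynomial.C (a (s, l)) * Polynomial.X ^ (l : ℕ))

open Polynomial in
theorem IsForm.ratFunc {k σ : Type} [Field k] [Fintype σ] {d : ℕ}
    {f : (σ → RatFunc k) → RatFunc k} (hf : IsForm (RatFunc k) d f) :
    ∃ (q : k[X]) (C : ℕ), q ≠ 0 ∧ ∀ M : ℕ, ∃ G : ((σ × Fin (M + 1)) → k) → k[X],
      (∀ a, algebraMap k[X] (RatFunc k) q * f (polyVec k σ M a) =
        algebraMap k[X] (RatFunc k) (G a)) ∧
      (∀ a, (G a).natDegree ≤ d * M + C) ∧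
      (∀ m, IsForm k d (fun a => (G a).coeff m)) := by
  classical
  induction hf with
  | const c =>
    refine ⟨c.denom, c.num.natDegree, c.denom_ne_zero, fun M => ⟨fun _ => c.num, ?_, ?_, ?_⟩⟩
    · intro a
      have h1 := RatFunc.num_div_denom c
      have h2 : algebraMap k[X] (RatFunc k) c.denom ≠ 0 := by
        simpa using c.denom_ne_zero
      rw [div_eq_iff h2] at h1
      beta_reduce
      rw [h1, mul_comm]
    · intro a; simp
    · intro m; exact IsForm.const _
  | @add d f g _ _ h1 h2 =>
    obtain ⟨q₁, C₁, hq₁, H₁⟩ := h1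
    obtain ⟨q₂, C₂, hq₂, H₂⟩ := h2
    refine ⟨q₁ * q₂, C₁ + C₂ + q₁.natDegree + q₂.natDegree, mul_ne_zero hq₁ hq₂, fun M => ?_⟩
    obtain ⟨G₁, hG₁, hG₁d, hG₁f⟩ := H₁ M
    obtain ⟨G₂, hG₂, hG₂d, hG₂f⟩ := H₂ M
    refine ⟨fun a => q₂ * G₁ a + q₁ * G₂ a, ?_, ?_, ?_⟩
    · intro a
      simp only [map_add, map_mul]
      rw [← hG₁, ← hG₂]; ring
    · intro a
      refine (natDegree_add_le _ _).trans (max_le ?_ ?_)
      · refine natDegree_mul_le.trans ?_
        have := hG₁d a; omega
      · refine natDegree_mul_le.trans ?_
        have := hG₂d a; omega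
    · intro m
      simp only [Polynomial.coeff_add, Polynomial.coeff_mul]
      exact (IsForm.sum _ fun x _ => (hG₁f x.2).smul _).add
        (IsForm.sum _ fun x _ => (hG₂f x.2).smul _)
  | @mul d f l _ h =>
    obtain ⟨q, C, hq, H⟩ := h
    obtain ⟨⟨b, hb⟩, hbi⟩ := IsLocalization.exist_integer_multiples (nonZeroDivisors k[X])
      (Finset.univ : Finset σ) (fun s => l (Pi.single s 1))
    choose! p hp using hbi
    have hb0 : b ≠ 0 := nonZeroDivisors.ne_zero hb
    refine ⟨b * q, (∑ s, (p s).natDegree) + C, mul_ne_zero hb0 hq, fun M => ?_⟩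
    obtain ⟨G, hG, hGd, hGf⟩ := H M
    let Hh : ((σ × Fin (M + 1)) → k) → k[X] := fun a =>
      ∑ s, p s * (∑ l : Fin (M + 1), Polynomial.C (a (s, l)) * Polynomial.X ^ (l : ℕ))
    refine ⟨fun a => Hh a * G a, ?_, ?_, ?_⟩
    · intro a
      rw [map_mul, map_mul, ← hG]
      have h3 : polyVec k σ M a = ∑ s, polyVec k σ M a s • (Pi.single s (1 : RatFunc k) : σ → RatFunc k) := by
        funext j
        simp [Finset.sum_apply, Pi.single_apply]
      have h4 : algebraMap k[X] (RatFunc k) b * l (polyVec k σ M a) =
          algebraMap k[X] (RatFunc k) (Hh a) := by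
        rw [h3, map_sum, Finset.mul_sum, map_sum]
        refine Finset.sum_congr rfl fun s _ => ?_
        have h5 := hp s (Finset.mem_univ s)
        rw [_root_.map_smul, smul_eq_mul, map_mul, h5]
        simp only [polyVec, Algebra.smul_def]
        ring
      rw [← h4]; ring
    · intro a
      have h5 : (Hh a).natDegree ≤ M + ∑ s, (p s).natDegree := by
        apply natDegree_sum_le_of_forall_le
        intro s _
        refine natDegree_mul_le.trans ?_
        have h6 : (∑ l : Fin (M + 1), Polynomial.C (a (s, l)) * Polynomial.X ^ (l : ℕ)).natDegree ≤ M := by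
          apply natDegree_sum_le_of_forall_le
          intro l _
          refine (natDegree_C_mul_X_pow_le _ _).trans ?_
          omega
        have h7 : (p s).natDegree ≤ ∑ s, (p s).natDegree :=
          Finset.single_le_sum (f := fun s => (p s).natDegree) (fun _ _ => Nat.zero_le _)
            (Finset.mem_univ s)
        omega
      refine natDegree_mul_le.trans ?_
      have := hGd a
      have h8 : (d + 1) * M = d * M + M := by ring
      omega
    · intro m
      simp only [Polynomial.coeff_mul]
      apply IsForm.sum
      intro x _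
      have hQ : ∀ (s : σ) (n : ℕ), IsForm k 1 (fun a : σ × Fin (M + 1) → k =>
          (∑ l : Fin (M + 1), Polynomial.C (a (s, l)) * Polynomial.X ^ (l : ℕ) : k[X]).coeff n) := by
        intro s n
        simp only [Polynomial.finsetSum_coeff, Polynomial.coeff_C_mul]
        apply IsForm.sum
        intro l _
        have h9 : IsForm k 1 (fun a : σ × Fin (M + 1) → k =>
            (Polynomial.X ^ (l : ℕ) : k[X]).coeff n * a (s, l)) :=
          (IsForm.linear (LinearMap.proj (R := k) (φ := fun _ : σ × Fin (M + 1) => k) (s, l))).smul _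
        simpa only [mul_comm] using h9
      have h6 : IsForm k 1 (fun a => (Hh a).coeff x.1) := by
        have h10 : ∀ a, (Hh a).coeff x.1 = ∑ s, ∑ y ∈ Finset.HasAntidiagonal.antidiagonal x.1, (p s).coeff y.1 *
            (∑ l : Fin (M + 1), Polynomial.C (a (s, l)) * Polynomial.X ^ (l : ℕ) : k[X]).coeff y.2 := by
          intro a
          simp only [Hh]
          rw [Polynomial.finsetSum_coeff]
          refine Finset.sum_congr rfl fun s _ => ?_
          rw [Polynomial.coeff_mul]
        simp only [h10]
        apply IsForm.sum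
        intro s _
        apply IsForm.sum
        intro y _
        exact (hQ s y.2).smul _
      have h7 := h6.mul' (hGf x.2)
      rwa [add_comm 1 d] at h7

end RatFunc

theorem C1.ratFunc (k : Type) [Field k] [IsAlgClosed k] : C1 (RatFunc k) := by
  classical
  intro σ ι _ _ f d hd hf hcard
  choose q C hq H using fun i => (hf i).ratFunc
  let M : ℕ := ∑ i, (C i + 1)
  choose G hG hGd hGf using fun i => H i M
  obtain ⟨a, ha, ha0⟩ := exists_common_zero_form (k := k) (σ := σ × Fin (M + 1))
    (ι := Σ i : ι, Fin (d i * M + C i + 1)) (fun i a => (G i.1 a).coeff i.2) (fun i => d i.1)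
    (fun i => hd i.1) (fun i => hGf i.1 i.2) (by
      rw [Fintype.card_sigma, Fintype.card_prod]
      simp only [Fintype.card_fin]
      have h1 : ∑ i, (d i * M + C i + 1) = (∑ i, d i) * M + M := by
        simp only [add_assoc]
        rw [Finset.sum_add_distrib, Finset.sum_mul]
      rw [h1]
      have h2 : (∑ i, d i + 1) * (M + 1) ≤ Fintype.card σ * (M + 1) :=
        Nat.mul_le_mul_right _ hcard
      have h3 : (∑ i, d i + 1) * (M + 1) = (∑ i, d i) * M + M + (∑ i, d i + 1) := by ring
      omega)
  refine ⟨polyVec k σ M a, ?_, ?_⟩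
  · intro h0
    apply ha
    funext sl
    obtain ⟨s, l⟩ := sl
    have h1 := congrFun h0 s
    simp only [polyVec, Pi.zero_apply] at h1
    have h2 : (∑ l : Fin (M + 1), Polynomial.C (a (s, l)) * Polynomial.X ^ (l : ℕ)) = 0 := by
      have := (algebraMap (Polynomial k) (RatFunc k)).map_zero
      rw [← this] at h1
      exact IsFractionRing.injective (Polynomial k) (RatFunc k) h1
    have h3 := congrArg (fun r => Polynomial.coeff r (l : ℕ)) h2
    simp only [Polynomial.finsetSum_coeff, Polynomial.coeff_C_mul, Polynomial.coeff_X_pow,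
      Polynomial.coeff_zero] at h3
    rw [Finset.sum_eq_single l] at h3
    · simpa using h3
    · intro b _ hb
      have : (l : ℕ) ≠ b := fun h => hb (Fin.ext h.symm)
      simp [this]
    · simp
  · intro i
    have h1 : G i a = 0 := by
      ext m
      by_cases hm : m < d i * M + C i + 1
      · exact ha0 ⟨i, ⟨m, hm⟩⟩
      · rw [Polynomial.coeff_eq_zero_of_natDegree_lt, Polynomial.coeff_zero]
        have := hGd i a
        omega
    have h2 := hG i a
    rw [h1, map_zero] at h2
    rcases mul_eq_zero.mp h2 with h3 | h3
    · exfalso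
      apply hq i
      have := (algebraMap (Polynomial k) (RatFunc k)).map_zero
      rw [← this] at h3
      exact IsFractionRing.injective (Polynomial k) (RatFunc k) h3
    · exact h3

/-- The theorem of Tsen and Lang for function fields of curves over algebraically closed fields. -/
theorem C1.functionField (k K : Type) [Field k] [IsAlgClosed k] [Field K] [Algebra (RatFunc k) K]
    [FiniteDimensional (RatFunc k) K] : C1 K :=
  (C1.ratFunc k).of_finite

end Pool.Agent.WA
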