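import Mathlib
import Pool.Agent.WA.TsenLang

set_option autoImplicit false

/-!
Expansion of a form along finitely many fixed vectors and one variable vector.
-/

namespace Pool.Agent.WA

open MvPolynomial

section Expansion

variable {K σ τ : Type} [Field K] [Fintype τ]

/-- The linear combination `t u + ∑ s_j b_j`. -/
noncomputable def lin {A : Type} [CommRing A] [Algebra K A] (b : τ → σ → K) (u : σ → A) (s : τ → A)
    (t : A) : σ → A :=
  fun i => t * u i + ∑ j, s j * algebraMap K A (b j i)

/-- The expansion of a polynomial at `t X + ∑ s_j b_j`, as a polynomial in `t` and the `s_j`, with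
coefficients polynomials in the variable vector `X`. -/
noncomputable def expand (b : τ → σ → K) :
    MvPolynomial σ K →ₐ[K] MvPolynomial (Option τ) (MvPolynomial σ K) :=
  aeval (fun i => C (X i) * X none + ∑ j, C (C (b j i)) * X (some j))

/-- Coefficients at a monomial are homogeneous, of degree the exponent of the distinguished
variable. -/
def GoodCoeff (q : MvPolynomial (Option τ) (MvPolynomial σ K)) : Prop :=
  ∀ μ, (coeff μ q).IsHomogeneous (μ none)

omit [Fintype τ] in
theorem GoodCoeff.add {p q : MvPolynomial (Option τ) (MvPolynomial σ K)} (hp : GoodCoeff p)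
    (hq : GoodCoeff q) : GoodCoeff (p + q) := by
  intro μ
  rw [coeff_add]
  exact (hp μ).add (hq μ)

omit [Fintype τ] in
theorem GoodCoeff.mul {p q : MvPolynomial (Option τ) (MvPolynomial σ K)} (hp : GoodCoeff p)
    (hq : GoodCoeff q) : GoodCoeff (p * q) := by
  classical
  intro μ
  rw [coeff_mul]
  apply IsHomogeneous.sum
  rintro ⟨a, b⟩ hab
  rw [Finset.HasAntidiagonal.mem_antidiagonal] at hab
  have h1 := (hp a).mul (hq b)
  have h2 : a none + b none = μ none := by rw [← hab]; rfl
  rwa [h2] at h1

omit [Fintype τ] in
theorem GoodCoeff.sum {ι : Type*} (s : Finset ι)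
    {p : ι → MvPolynomial (Option τ) (MvPolynomial σ K)} (hp : ∀ i ∈ s, GoodCoeff (p i)) :
    GoodCoeff (∑ i ∈ s, p i) := by
  classical
  induction s using Finset.induction_on with
  | empty =>
    intro μ
    simpa using isHomogeneous_zero σ K (μ none)
  | insert i s hi ih =>
    rw [Finset.sum_insert hi]
    exact (hp i (Finset.mem_insert_self i s)).add
      (ih (fun j hj => hp j (Finset.mem_insert_of_mem hj)))

theorem goodCoeff_expand (b : τ → σ → K) (G : MvPolynomial σ K) : GoodCoeff (expand b G) := by
  classical
  have hC : ∀ a : K, GoodCoeff (τ := τ) (σ := σ) (C (C a)) := by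
    intro a μ
    rw [coeff_C]
    split_ifs with h
    · rw [← h]; exact isHomogeneous_C σ a
    · exact isHomogeneous_zero σ K _
  induction G using MvPolynomial.induction_on with
  | C a =>
    have : expand b (C a) = C (C a) := by
      simp [expand]
    rw [this]; exact hC a
  | add p q hp hq => rw [map_add]; exact hp.add hq
  | mul_X p i hp =>
    rw [map_mul]
    refine hp.mul ?_
    have : expand b (X i) = C (X i) * X none + ∑ j, C (C (b j i)) * X (some j) := by
      simp [expand]
    rw [this]
    refine GoodCoeff.add ?_ (GoodCoeff.sum _ fun j _ => (hC (b j i)).mul ?_)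
    · intro μ
      rw [coeff_C_mul, coeff_X]
      split_ifs with h
      · rw [← h]
        simpa using isHomogeneous_X K i
      · simpa using isHomogeneous_zero σ K _
    · intro μ
      rw [coeff_X]
      split_ifs with h
      · rw [← h]
        simpa using isHomogeneous_one σ K
      · exact isHomogeneous_zero σ K _

theorem isHomogeneous_expand (b : τ → σ → K) {G : MvPolynomial σ K} {e : ℕ}
    (hG : G.IsHomogeneous e) : (expand b G).IsHomogeneous e := by
  have h1 : ∀ i, (C (X i) * X none + ∑ j, C (C (b j i)) * X (some j) :
      MvPolynomial (Option τ) (MvPolynomial σ K)).IsHomogeneous 1 := by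
    intro i
    apply IsHomogeneous.add
    · simpa using (isHomogeneous_C (Option τ) (X i : MvPolynomial σ K)).mul
        (isHomogeneous_X (MvPolynomial σ K) none)
    · apply IsHomogeneous.sum
      intro j _
      simpa using (isHomogeneous_C (Option τ) (C (b j i) : MvPolynomial σ K)).mul
        (isHomogeneous_X (MvPolynomial σ K) (some j))
  have := hG.aeval (n := 1) _ h1
  simpa [expand] using this

/-- Evaluating the expansion. -/
theorem eval_expand (b : τ → σ → K) {A : Type} [CommRing A] [Algebra K A] (u : σ → A) (s : τ → A)
    (t : A) (G : MvPolynomial σ K) :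
    eval₂ (aeval u : MvPolynomial σ K →ₐ[K] A).toRingHom (fun o : Option τ => o.elim t s)
      (expand b G) = aeval (lin b u s t) G := by
  induction G using MvPolynomial.induction_on with
  | C a =>
    have : expand b (C a) = C (C a) := by
      simp [expand]
    rw [this]
    simp
  | add p q hp hq => rw [map_add, eval₂_add, hp, hq, map_add]
  | mul_X p i hp =>
    rw [map_mul, eval₂_mul, hp, map_mul]
    congr 1
    have : expand b (X i) = C (X i) * X none + ∑ j, C (C (b j i)) * X (some j) := by
      simp [expand]
    rw [this, eval₂_add, eval₂_sum]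
    simp [lin, mul_comm]

/-- The coefficient of the highest power of the distinguished variable is the form itself. -/
theorem coeff_single_expand (b : τ → σ → K) {G : MvPolynomial σ K} {e : ℕ}
    (hG : G.IsHomogeneous e) : coeff (Finsupp.single none e) (expand b G) = G := by
  classical
  have h1 := eval_expand b (A := MvPolynomial σ K) (X : σ → MvPolynomial σ K)
    (0 : τ → MvPolynomial σ K) 1 G
  have h2 : lin b (X : σ → MvPolynomial σ K) (0 : τ → MvPolynomial σ K) 1 = X := by
    funext i
    simp [lin]
  rw [h2, aeval_X_left_apply, eval₂_eq'] at h1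
  have h3 : ((aeval X : MvPolynomial σ K →ₐ[K] MvPolynomial σ K)).toRingHom =
      RingHom.id (MvPolynomial σ K) := by
    ext <;> simp
  rw [h3] at h1
  refine Eq.trans (Eq.symm ?_) h1
  rw [Finset.sum_eq_single (Finsupp.single none e)]
  · simp [Fintype.prod_option]
  · intro μ hμ hne
    by_cases h4 : ∃ j, μ (some j) ≠ 0
    · obtain ⟨j, hj⟩ := h4
      rw [Finset.prod_eq_zero (Finset.mem_univ (some j))]
      · simp
      · simp [hj]
    · exfalso
      push Not at h4
      apply hne
      have h5 := (isHomogeneous_expand b hG) (mem_support_iff.mp hμ)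
      have h6 : μ = Finsupp.single none (μ none) := by
        ext o
        cases o with
        | none => simp
        | some j => simp [h4 j]
      rw [h6] at h5
      have h7 : μ none = e := by
        simpa [Finsupp.weight_apply] using h5
      rw [h6, h7]
  · intro hnot
    rw [notMem_support_iff.mp hnot]
    simp

end Expansion

end Pool.Agent.WA
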