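import Mathlib
import Pool.Agent.WA.Polar
import Pool.Agent.WA.Generic

set_option autoImplicit false

/-!
The key step: extending a linear subspace of a smooth hypersurface by a direction in which some
polar of the form is a pure power.
-/

namespace Pool.Agent.WA

open MvPolynomial

/-- A form is smooth when it has no nontrivial singular zero in any extension field. -/
def SmoothForm {K σ : Type} [Field K] (F : MvPolynomial σ K) : Prop :=
  ∀ (L : Type) [Field L] [Algebra K L] (x : σ → L), aeval x F = 0 →
    (∀ i, aeval x (pderiv i F) = 0) → x = 0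

section

variable {K σ τ : Type} [Field K] [Fintype τ]

open Classical in
/-- The monomials of degree `e` in the variables indexed by `Option τ`. -/
noncomputable def mons (τ : Type) [Fintype τ] (e : ℕ) : Finset (Option τ →₀ ℕ) :=
  (Finset.univ : Finset (Option τ)).finsuppAntidiag e

theorem mem_mons {e : ℕ} {μ : Option τ →₀ ℕ} : μ ∈ mons τ e ↔ ∑ o, μ o = e := by
  classical
  unfold mons
  rw [Finset.mem_finsuppAntidiag]
  constructor
  · rintro ⟨h, _⟩
    exact h
  · intro h
    exact ⟨h, Finset.subset_univ _⟩

theorem aeval_lin_eq_sum (b : τ → σ → K) {G : MvPolynomial σ K} {e : ℕ} (hG : G.IsHomogeneous e)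
    {A : Type} [CommRing A] [Algebra K A] (u : σ → K) (s : τ → A) (t : A) :
    aeval (lin b (fun i => algebraMap K A (u i)) s t) G =
      ∑ μ ∈ mons τ e, algebraMap K A (eval u (coeff μ (expand b G))) *
        ∏ o : Option τ, (o.elim t s) ^ μ o := by
  classical
  rw [← eval_expand, eval₂_eq']
  have h1 : ∀ p : MvPolynomial σ K,
      (aeval (fun i => algebraMap K A (u i)) : MvPolynomial σ K →ₐ[K] A).toRingHom p =
      algebraMap K A (eval u p) := by
    intro p
    change aeval (fun i => algebraMap K A (u i)) p = _
    rw [aeval_def, eval₂_eq_eval_map]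
    induction p using MvPolynomial.induction_on with
    | C a => simp
    | add p q hp hq => simp only [map_add, hp, hq]
    | mul_X p i hp => simp only [map_mul, map_X, eval_X, hp]
  simp_rw [h1]
  apply Finset.sum_subset
  · intro μ hμ
    rw [mem_mons]
    have h5 := (isHomogeneous_expand b hG) (mem_support_iff.mp hμ)
    have h6 : (Finsupp.weight (1 : Option τ → ℕ)) μ = ∑ o ∈ μ.support, μ o := by
      simp [Finsupp.weight_apply, Finsupp.sum]
    rw [← h5, h6]
    symm
    apply Finset.sum_subset (Finset.subset_univ _)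
    intro o _ ho
    simpa using ho
  · intro μ _ hμ
    rw [notMem_support_iff.mp hμ]
    simp

end

/-- The key step. -/
theorem key_step {K σ τ : Type} [Field K] [Infinite K] (hC1 : C1 K) [Fintype σ] [Fintype τ]
    (F : MvPolynomial σ K) (d : ℕ) (hd : 0 < d) (hF : F.IsHomogeneous d) (hsm : SmoothForm F)
    (b : τ → σ → K)
    (hb : ∀ (A : Type) [CommRing A] [Algebra K A] (s : τ → A),
      aeval (lin b (0 : σ → A) s 0) F = 0)
    (hcard : (∑ μ ∈ mons τ d, μ none) + (mons τ (d - 1)).card + 1 ≤ Fintype.card σ) :
    ∃ (u z : σ → K) (c : K), c ≠ 0 ∧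
      (∀ (A : Type) [CommRing A] [Algebra K A] (s : τ → A) (t : A),
        aeval (lin b (fun i => algebraMap K A (u i)) s t) F = 0) ∧
      (∀ (A : Type) [CommRing A] [Algebra K A] (s : τ → A) (t : A),
        ∑ l, algebraMap K A (z l) *
          aeval (lin b (fun i => algebraMap K A (u i)) s t) (pderiv l F) =
          algebraMap K A c * t ^ (d - 1)) := by
  classical
  by_contra hcon
  let top : Option τ →₀ ℕ := Finsupp.single none (d - 1)
  have htop : top ∈ mons τ (d - 1) := by
    rw [mem_mons]
    simp [top, Finsupp.single_apply]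
  let ν := {x // x ∈ (mons τ (d - 1)).erase top}
  let instν : Fintype ν := FinsetCoe.fintype ((mons τ (d - 1)).erase top)
  let Γ : (σ → K) → σ → K := fun u l => eval u (coeff top (expand b (pderiv l F)))
  let Pn : ν → (σ → K) → σ → K := fun x u l => eval u (coeff x.1 (expand b (pderiv l F)))
  have hpd : ∀ l, (pderiv l F).IsHomogeneous (d - 1) := fun l => hF.pderiv
  -- the span property
  have hspan : ∀ u : σ → K, (∀ μ ∈ mons τ d, 0 < μ none → eval u (coeff μ (expand b F)) = 0) →
      ∃ α : ν → K, Γ u = ∑ x, α x • Pn x u := by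
    intro u hu
    by_cases hmem : Γ u ∈ Submodule.span K (Set.range (fun x => Pn x u))
    · rw [Submodule.mem_span_range_iff_exists_fun] at hmem
      obtain ⟨α, hα⟩ := hmem
      exact ⟨α, hα.symm⟩
    · exfalso
      apply hcon
      obtain ⟨φ, hφ, hφ0⟩ := Submodule.exists_le_ker_of_notMem hmem
      let z : σ → K := fun l => φ (Pi.single l 1)
      have hφz : ∀ y : σ → K, φ y = ∑ l, z l * y l := by
        intro y
        have h3 : y = ∑ i, y i • (Pi.single i (1 : K) : σ → K) := by
          funext j
          simp [Finset.sum_apply, Pi.single_apply]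
        conv_lhs => rw [h3]
        rw [map_sum]
        refine Finset.sum_congr rfl fun i _ => ?_
        rw [map_smul, smul_eq_mul, mul_comm]
      refine ⟨u, z, φ (Γ u), hφ, ?_, ?_⟩
      · intro A _ _ s t
        have h0 := hb A s
        have h1 : lin b (0 : σ → A) s 0 = lin b (fun i => algebraMap K A (u i)) s 0 := by
          funext i
          simp [lin]
        rw [h1, aeval_lin_eq_sum b hF] at h0
        rw [aeval_lin_eq_sum b hF, ← h0]
        refine Finset.sum_congr rfl fun μ hμ => ?_
        by_cases h2 : 0 < μ none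
        · rw [hu μ hμ h2]; simp
        · have h3 : μ none = 0 := by omega
          congr 1
          rw [Fintype.prod_option, Fintype.prod_option]
          simp [h3]
      · intro A _ _ s t
        have h1 : ∑ l, algebraMap K A (z l) *
            aeval (lin b (fun i => algebraMap K A (u i)) s t) (pderiv l F) =
            ∑ μ ∈ mons τ (d - 1), algebraMap K A
              (φ (fun l => eval u (coeff μ (expand b (pderiv l F))))) *
              ∏ o : Option τ, (o.elim t s) ^ μ o := by
          simp_rw [aeval_lin_eq_sum b (hpd _), Finset.mul_sum]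
          rw [Finset.sum_comm]
          refine Finset.sum_congr rfl fun μ _ => ?_
          rw [hφz, map_sum, Finset.sum_mul]
          refine Finset.sum_congr rfl fun l _ => ?_
          rw [map_mul]; ring
        rw [h1, Finset.sum_eq_single top]
        · congr 1
          rw [Fintype.prod_option]
          simp [top]
        · intro μ hμ hne
          have h2 : φ (fun l => eval u (coeff μ (expand b (pderiv l F)))) = 0 := by
            apply LinearMap.mem_ker.mp
            apply hφ0
            apply Submodule.subset_span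
            exact ⟨⟨μ, Finset.mem_erase.mpr ⟨hne, hμ⟩⟩, rfl⟩
          rw [h2]; simp
        · intro hnot
          exact absurd htop hnot
  -- the system of relations
  let r := (mons τ (d - 1)).card
  have hr : Fintype.card ν < r := by
    have h1 : Fintype.card ν = ((mons τ (d - 1)).erase top).card := Fintype.card_coe _
    rw [h1, Finset.card_erase_of_mem htop]
    have : 0 < (mons τ (d - 1)).card := Finset.card_pos.mpr ⟨top, htop⟩
    omega
  let P : Set (MvPolynomial (σ ⊕ ν) K) :=
    {p | ∃ μ ∈ mons τ d, 0 < μ none ∧ p = rename Sum.inl (coeff μ (expand b F))} ∪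
    {p | ∃ l : σ, p = rename Sum.inl (coeff top (expand b (pderiv l F))) -
      ∑ x : ν, X (Sum.inr x) * rename Sum.inl (coeff x.1 (expand b (pderiv l F)))}
  have hsys : ∀ ξ : Fin r × σ → K, ∃ (u : σ → K) (α : ν → K), (∃ l, u l = 1) ∧
      (∀ a, ∑ l, ξ (a, l) * u l = 0) ∧ ∀ p ∈ P, eval (Sum.elim u α) p = 0 := by
    intro ξ
    let ι := {x // x ∈ (mons τ d).filter (fun μ => 0 < μ none)} ⊕ Fin r
    let f : ι → (σ → K) → K := fun i => i.elim
      (fun μ u => eval u (coeff μ.1 (expand b F))) (fun a u => ∑ l, ξ (a, l) * u l)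
    let dd : ι → ℕ := fun i => i.elim (fun μ => μ.1 none) (fun _ => 1)
    have hform : ∀ i, IsForm K (dd i) (f i) := by
      rintro (μ | a)
      · exact IsForm.of_mvPolynomial (goodCoeff_expand b F μ.1)
      · apply IsForm.sum
        intro l _
        exact (IsForm.linear (LinearMap.proj (R := K) (φ := fun _ : σ => K) l)).smul _
    obtain ⟨u₀, hu₀, hzero⟩ := hC1 σ ι f dd (by
      rintro (μ | a)
      · exact (Finset.mem_filter.mp μ.2).2
      · exact Nat.one_pos) hform (by
        rw [Fintype.sum_sum_type]
        have h1 : ∑ x : {x // x ∈ (mons τ d).filter (fun μ => 0 < μ none)}, dd (Sum.inl x) =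
            ∑ μ ∈ (mons τ d).filter (fun μ => 0 < μ none), μ none :=
          Finset.sum_coe_sort ((mons τ d).filter (fun μ => 0 < μ none)) (fun μ => μ none)
        have h2 : ∑ μ ∈ (mons τ d).filter (fun μ => 0 < μ none), μ none ≤
            ∑ μ ∈ mons τ d, μ none :=
          Finset.sum_le_sum_of_subset (Finset.filter_subset _ _)
        have h3 : ∑ x : Fin r, dd (Sum.inr x) = r := by simp [dd]
        rw [h1, h3]
        omega)
    obtain ⟨l₀, hl₀⟩ : ∃ l, u₀ l ≠ 0 := by
      by_contra h
      push Not at h
      exact hu₀ (funext h)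
    let u : σ → K := (u₀ l₀)⁻¹ • u₀
    have hzu : ∀ i, f i u = 0 := by
      intro i
      rw [(hform i).map_smul, hzero, mul_zero]
    have hu1 : ∀ μ ∈ mons τ d, 0 < μ none → eval u (coeff μ (expand b F)) = 0 := by
      intro μ hμ hpos
      exact hzu (Sum.inl ⟨μ, Finset.mem_filter.mpr ⟨hμ, hpos⟩⟩)
    obtain ⟨α, hα⟩ := hspan u hu1
    refine ⟨u, α, ⟨l₀, ?_⟩, ?_, ?_⟩
    · simp [u, inv_mul_cancel₀ hl₀]
    · intro a
      exact hzu (Sum.inr a)
    · rintro p (⟨μ, hμ, hpos, rfl⟩ | ⟨l, rfl⟩)
      · rw [eval_rename]
        exact hu1 μ hμ hpos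
      · rw [map_sub, map_sum, eval_rename]
        simp_rw [map_mul, eval_X, eval_rename]
        have h1 := congrFun hα l
        rw [Finset.sum_apply] at h1
        rw [sub_eq_zero]
        exact h1
  obtain ⟨Ω, _, _, ξ, u, α, hξ, ⟨l₀, hl₀⟩, hsec, hP⟩ := exists_generic r P hsys
  obtain ⟨l, hl⟩ := exists_not_algebraic r hr ξ hξ u l₀ hl₀ hsec α
  obtain ⟨κ, _, _, w, hw, hdeg⟩ := exists_degeneration
    (IntermediateField.adjoin K (Set.range α)) u ⟨l, hl⟩
  apply hw
  apply hsm κ w
  · have h1 : aeval u F = 0 := by
      have h2 := hP (rename Sum.inl (coeff (Finsupp.single none d) (expand b F)))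
        (Or.inl ⟨Finsupp.single none d, by rw [mem_mons]; simp [Finsupp.single_apply], by simpa using hd, rfl⟩)
      rw [aeval_rename, coeff_single_expand b hF] at h2
      exact h2
    refine hdeg d F hF (Fin 0) (fun i => i.elim0) (fun i => i.elim0) (fun i => i.elim0)
      (fun i => i.elim0) (fun i => i.elim0) (fun i => i.elim0) ?_
    simpa using h1
  · intro i
    have h2 := hP _ (Or.inr ⟨i, rfl⟩)
    rw [map_sub, aeval_rename, sub_eq_zero, coeff_single_expand b (hpd i), map_sum] at h2
    refine hdeg (d - 1) (pderiv i F) (hpd i) ν α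
      (fun x => IntermediateField.subset_adjoin _ _ ⟨x, rfl⟩)
      (fun x => coeff x.1 (expand b (pderiv i F))) (fun x => x.1 none)
      (fun x => goodCoeff_expand b (pderiv i F) x.1) ?_ ?_
    · intro x
      have h3 := Finset.mem_erase.mp x.2
      have h4 := mem_mons.mp h3.2
      rw [Fintype.sum_option] at h4
      by_contra h5
      apply h3.1
      have h6 : x.1 none = d - 1 := by omega
      have h7 : ∑ j, x.1 (some j) = 0 := by omega
      rw [Finset.sum_eq_zero_iff] at h7
      ext o
      cases o with
      | none => simp [top, h6]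
      | some j => simpa [top] using h7 j (Finset.mem_univ j)
    · have h3 : (Sum.elim u α ∘ Sum.inl : σ → Ω) = u := rfl
      rw [h3] at h2
      rw [h2]
      refine Finset.sum_congr rfl fun x _ => ?_
      rw [map_mul, aeval_X, aeval_rename]
      rfl

end Pool.Agent.WA
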