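import Mathlib
import Pool.Agent.WA.KeyStep

set_option autoImplicit false

/-!
Flags of linear subspaces through a point of a smooth hypersurface, along which suitable polars of
the form are pure powers.
-/

namespace Pool.Agent.WA

open MvPolynomial

theorem sum_mons_mul (τ : Type) [Fintype τ] (d : ℕ) :
    (Fintype.card τ + 1) * (∑ μ ∈ mons τ d, μ none) = d * (mons τ d).card := by
  classical
  have h1 : ∀ o : Option τ, ∑ μ ∈ mons τ d, μ o = ∑ μ ∈ mons τ d, μ none := by
    intro o
    refine Finset.sum_nbij' (fun μ => Finsupp.equivMapDomain (Equiv.swap o none) μ)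
      (fun μ => Finsupp.equivMapDomain (Equiv.swap o none) μ) ?_ ?_ ?_ ?_ ?_
    · intro μ hμ
      rw [mem_mons] at hμ ⊢
      rw [← hμ]
      simp only [Finsupp.equivMapDomain_apply]
      exact Equiv.sum_comp (Equiv.swap o none).symm (fun x => μ x)
    · intro μ hμ
      rw [mem_mons] at hμ ⊢
      rw [← hμ]
      simp only [Finsupp.equivMapDomain_apply]
      exact Equiv.sum_comp (Equiv.swap o none).symm (fun x => μ x)
    · intro μ _
      ext x
      simp [Finsupp.equivMapDomain_apply]
    · intro μ _
      ext x
      simp [Finsupp.equivMapDomain_apply]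
    · intro μ _
      simp [Finsupp.equivMapDomain_apply]
  have h2 : ∑ o : Option τ, ∑ μ ∈ mons τ d, μ o = d * (mons τ d).card := by
    rw [Finset.sum_comm]
    rw [Finset.sum_congr rfl (fun μ hμ => mem_mons.mp hμ)]
    simp [mul_comm]
  rw [← h2, Finset.sum_congr rfl (fun o _ => h1 o)]
  simp

theorem card_mons (τ : Type) [Fintype τ] (d : ℕ) :
    (mons τ d).card = (Fintype.card τ + d).choose d := by
  classical
  unfold mons
  rw [Finset.card_finsuppAntidiag_nat_eq_choose]
  congr 1
  rw [Finset.card_univ, Fintype.card_option]
  omega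

theorem sum_mons (τ : Type) [Fintype τ] (d : ℕ) :
    (∑ μ ∈ mons τ d, μ none) = (Fintype.card τ + d).choose (Fintype.card τ + 1) := by
  have h1 := sum_mons_mul τ d
  rw [card_mons] at h1
  set N := Fintype.card τ with hN
  have h2 : (N + 1) * (N + d).choose (N + 1) = d * (N + d).choose d := by
    rcases Nat.eq_zero_or_pos d with h0 | hpos
    · subst h0; simp
    · obtain ⟨e, rfl⟩ : ∃ e, d = e + 1 := ⟨d - 1, by omega⟩
      have h3 := Nat.add_one_mul_choose_eq (N + e) e
      have h4 := Nat.add_one_mul_choose_eq (N + e) N
      have h5 : (N + e).choose e = (N + e).choose N := by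
        rw [← Nat.choose_symm_of_eq_add (n := N + e) (a := N) (b := e) rfl]
      have h6 : (N + (e + 1)) = (N + e).succ := by omega
      rw [h6]
      calc (N + 1) * (N + e).succ.choose (N + 1) = (N + e).succ.choose N.succ * N.succ := by
            rw [mul_comm]
        _ = (N + e).succ * (N + e).choose N := h4.symm
        _ = (N + e).succ * (N + e).choose e := by rw [h5]
        _ = (N + e).succ.choose e.succ * e.succ := h3
        _ = (e + 1) * (N + e).succ.choose (e + 1) := by rw [mul_comm]
  have h3 : (N + 1) * (∑ μ ∈ mons τ d, μ none) = (N + 1) * (N + d).choose (N + 1) := by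
    rw [h1, h2]
  exact Nat.eq_of_mul_eq_mul_left (Nat.succ_pos N) h3

/-- The linear combination `a x + ∑ t_j u_j`. -/
noncomputable def comb {K σ A : Type} [Field K] [CommRing A] [Algebra K A] {j : ℕ} (x : σ → K)
    (u : Fin j → σ → K) (a : A) (t : Fin j → A) : σ → A :=
  fun i => a * algebraMap K A (x i) + ∑ l, t l * algebraMap K A (u l i)

theorem aeval_algebraMap_eq {K A σ : Type} [Field K] [CommRing A] [Algebra K A] (u : σ → K)
    (p : MvPolynomial σ K) :
    aeval (fun i => algebraMap K A (u i)) p = algebraMap K A (eval u p) := by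
  induction p using MvPolynomial.induction_on with
  | C a => simp
  | add p q hp hq => simp only [map_add, hp, hq]
  | mul_X p i hp => simp only [map_mul, aeval_X, eval_X, hp]

theorem exists_flag_aux {K σ : Type} [Field K] [Infinite K] (hC1 : C1 K) [Fintype σ]
    (F : MvPolynomial σ K) (d : ℕ) (hd : 0 < d) (hF : F.IsHomogeneous d) (hsm : SmoothForm F)
    (hcard : (2 * d).choose (d + 1) + (2 * d - 1).choose d + 1 ≤ Fintype.card σ)
    (x : σ → K) (hx : eval x F = 0) (j : ℕ) (hj : j ≤ d) :
    ∃ (u z : Fin j → σ → K) (c : Fin j → K), (∀ i, c i ≠ 0) ∧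
      ∀ (A : Type) [CommRing A] [Algebra K A] (a : A) (t : Fin j → A),
        aeval (comb x u a t) F = 0 ∧
        ∀ i, (∀ i', i < i' → t i' = 0) →
          ∑ l, algebraMap K A (z i l) * aeval (comb x u a t) (pderiv l F) =
            algebraMap K A (c i) * t i ^ (d - 1) := by
  induction j with
  | zero =>
    refine ⟨fun i => i.elim0, fun i => i.elim0, fun i => i.elim0, fun i => i.elim0, ?_⟩
    intro A _ _ a t
    refine ⟨?_, fun i => i.elim0⟩
    have h1 : comb x (fun i : Fin 0 => i.elim0) a t = fun i => a * algebraMap K A (x i) := by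
      funext i; simp [comb]
    rw [h1, aeval_smul_of_homogeneous hF]
    rw [aeval_algebraMap_eq, hx]; simp
  | succ j ih =>
    obtain ⟨u, z, c, hc, h⟩ := ih (by omega)
    let b : Option (Fin j) → σ → K := fun o => o.elim x u
    obtain ⟨u', z', c', hc', h1, h2⟩ := key_step hC1 F d hd hF hsm b (by
      intro A _ _ s
      have h3 := (h A (s none) (fun i => s (some i))).1
      have h4 : lin b (0 : σ → A) s 0 = comb x u (s none) (fun i => s (some i)) := by
        funext i
        simp [lin, comb, b, Fintype.sum_option]
      rw [h4]; exact h3) (by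
      rw [sum_mons, card_mons]
      simp only [Fintype.card_option, Fintype.card_fin]
      have e1 : (j + 1 + d).choose (j + 1 + 1) ≤ (2 * d).choose (d + 1) := by
        have h3 : (j + 1 + d).choose (j + 1 + 1) = (j + 1 + d).choose (d - 1) :=
          Nat.choose_symm_of_eq_add (by omega)
        have h4 : (2 * d).choose (d + 1) = (2 * d).choose (d - 1) :=
          Nat.choose_symm_of_eq_add (by omega)
        rw [h3, h4]
        exact Nat.choose_le_choose _ (by omega)
      have e2 : (j + 1 + (d - 1)).choose (d - 1) ≤ (2 * d - 1).choose d := by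
        have h4 : (2 * d - 1).choose d = (2 * d - 1).choose (d - 1) :=
          Nat.choose_symm_of_eq_add (by omega)
        rw [h4]
        exact Nat.choose_le_choose _ (by omega)
      omega)
    have hcomb : ∀ (A : Type) [CommRing A] [Algebra K A] (a : A) (t : Fin (j + 1) → A),
        comb x (Fin.snoc u u' : Fin (j + 1) → σ → K) a t =
        lin b (fun i => algebraMap K A (u' i)) (fun o : Option (Fin j) =>
          o.elim a (fun i => t i.castSucc)) (t (Fin.last j)) := by
      intro A _ _ a t
      funext i
      simp only [comb, lin, Fin.sum_univ_castSucc, Fin.snoc_castSucc, Fin.snoc_last,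
        Fintype.sum_option, b, Option.elim_none, Option.elim_some]
      ring
    refine ⟨Fin.snoc u u', Fin.snoc z z', Fin.snoc c c', ?_, ?_⟩
    · intro i
      refine Fin.lastCases ?_ (fun i => ?_) i
      · simpa using hc'
      · simpa using hc i
    · intro A _ _ a t
      refine ⟨?_, ?_⟩
      · rw [hcomb]; exact h1 A _ _
      · intro i
        refine Fin.lastCases ?_ (fun i => ?_) i
        · intro _
          rw [hcomb]
          simpa using h2 A (fun o : Option (Fin j) => o.elim a (fun i => t i.castSucc))
            (t (Fin.last j))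
        · intro hi
          have hlast : t (Fin.last j) = 0 := hi (Fin.last j) (Fin.castSucc_lt_last i)
          have h3 : comb x (Fin.snoc u u' : Fin (j + 1) → σ → K) a t =
              comb x u a (fun i => t i.castSucc) := by
            funext l
            simp only [comb, Fin.sum_univ_castSucc, Fin.snoc_castSucc, Fin.snoc_last, hlast,
              zero_mul, add_zero]
          rw [h3]
          have h4 := (h A a (fun i => t i.castSucc)).2 i (fun i' hi' => hi i'.castSucc (by
            simpa using hi'))
          simpa using h4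

/-- A flag of linear subspaces through a point of a smooth hypersurface, with polars that are pure
powers. -/
theorem exists_flag {K σ : Type} [Field K] [Infinite K] (hC1 : C1 K) [Fintype σ]
    (F : MvPolynomial σ K) (d : ℕ) (hd : 0 < d) (hF : F.IsHomogeneous d) (hsm : SmoothForm F)
    (hcard : (2 * d).choose (d + 1) + (2 * d - 1).choose d + 1 ≤ Fintype.card σ)
    (x : σ → K) (hx : eval x F = 0) :
    ∃ (u z : Fin d → σ → K) (c : Fin d → K), (∀ i, c i ≠ 0) ∧
      ∀ (A : Type) [CommRing A] [Algebra K A] (a : A) (t : Fin d → A),
        aeval (comb x u a t) F = 0 ∧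
        ∀ i, (∀ i', i < i' → t i' = 0) →
          ∑ l, algebraMap K A (z i l) * aeval (comb x u a t) (pderiv l F) =
            algebraMap K A (c i) * t i ^ (d - 1) :=
  exists_flag_aux hC1 F d hd hF hsm hcard x hx d le_rfl

end Pool.Agent.WA
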