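import Mathlib

set_option autoImplicit false

/-!
Elementary estimates for polynomials over a valued field.
-/

namespace Pool.Agent.WA

open MvPolynomial

section Taylor

variable {E σ Γ₀ : Type} [Field E] [Fintype σ] [LinearOrderedCommGroupWithZero Γ₀]
  (v : Valuation E Γ₀)

omit [Fintype σ] in
theorem exists_bound (G : MvPolynomial σ E) (B : Γ₀) :
    ∃ C : Γ₀, ∀ y : σ → E, (∀ l, v (y l) ≤ B) → v (eval y G) ≤ C := by
  induction G using MvPolynomial.induction_on with
  | C a => exact ⟨v a, fun y _ => by simp⟩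
  | add p q hp hq =>
    obtain ⟨C₁, h₁⟩ := hp
    obtain ⟨C₂, h₂⟩ := hq
    refine ⟨max C₁ C₂, fun y hy => ?_⟩
    rw [map_add]
    exact v.map_add_le ((h₁ y hy).trans (le_max_left _ _)) ((h₂ y hy).trans (le_max_right _ _))
  | mul_X p i hp =>
    obtain ⟨C₁, h₁⟩ := hp
    refine ⟨C₁ * B, fun y hy => ?_⟩
    rw [map_mul, map_mul, eval_X]
    exact mul_le_mul' (h₁ y hy) (hy i)

theorem exists_lipschitz (G : MvPolynomial σ E) (B : Γ₀) :
    ∃ C : Γ₀, ∀ (y h : σ → E) (ρ : Γ₀), (∀ l, v (y l) ≤ B) → (∀ l, v (h l) ≤ ρ) → ρ ≤ B →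
      v (eval (y + h) G - eval y G) ≤ C * ρ := by
  induction G using MvPolynomial.induction_on with
  | C a => exact ⟨1, fun y h ρ _ _ _ => by simp⟩
  | add p q hp hq =>
    obtain ⟨C₁, h₁⟩ := hp
    obtain ⟨C₂, h₂⟩ := hq
    refine ⟨max C₁ C₂, fun y h ρ hy hh hρ => ?_⟩
    have e : eval (y + h) (p + q) - eval y (p + q) =
      (eval (y + h) p - eval y p) + (eval (y + h) q - eval y q) := by
      rw [map_add, map_add]; ring
    rw [e]
    refine v.map_add_le ((h₁ y h ρ hy hh hρ).trans ?_) ((h₂ y h ρ hy hh hρ).trans ?_)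
    · gcongr; exact le_max_left _ _
    · gcongr; exact le_max_right _ _
  | mul_X p i hp =>
    obtain ⟨C₁, h₁⟩ := hp
    obtain ⟨C₀, h₀⟩ := exists_bound v p B
    refine ⟨max (C₁ * B) C₀, fun y h ρ hy hh hρ => ?_⟩
    have e : eval (y + h) (p * X i) - eval y (p * X i) =
      (eval (y + h) p - eval y p) * (y i + h i) + eval y p * h i := by
      rw [map_mul, map_mul, eval_X, eval_X, Pi.add_apply]; ring
    rw [e]
    refine v.map_add_le ?_ ?_
    · rw [map_mul]
      calc v (eval (y + h) p - eval y p) * v (y i + h i) ≤ (C₁ * ρ) * B :=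
            mul_le_mul' (h₁ y h ρ hy hh hρ) (v.map_add_le (hy i) ((hh i).trans hρ))
        _ = (C₁ * B) * ρ := by rw [mul_right_comm]
        _ ≤ _ := by gcongr; exact le_max_left _ _
    · rw [map_mul]
      calc v (eval y p) * v (h i) ≤ C₀ * ρ := mul_le_mul' (h₀ y hy) (hh i)
        _ ≤ _ := by gcongr; exact le_max_right _ _

theorem exists_taylor (G : MvPolynomial σ E) (B : Γ₀) :
    ∃ C : Γ₀, ∀ (y h : σ → E) (ρ : Γ₀), (∀ l, v (y l) ≤ B) → (∀ l, v (h l) ≤ ρ) → ρ ≤ B →
      v (eval (y + h) G - eval y G - ∑ l, h l * eval y (pderiv l G)) ≤ C * ρ ^ 2 := by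
  classical
  induction G using MvPolynomial.induction_on with
  | C a => exact ⟨1, fun y h ρ _ _ _ => by simp⟩
  | add p q hp hq =>
    obtain ⟨C₁, h₁⟩ := hp
    obtain ⟨C₂, h₂⟩ := hq
    refine ⟨max C₁ C₂, fun y h ρ hy hh hρ => ?_⟩
    have e : eval (y + h) (p + q) - eval y (p + q) - ∑ l, h l * eval y (pderiv l (p + q)) =
      (eval (y + h) p - eval y p - ∑ l, h l * eval y (pderiv l p)) +
      (eval (y + h) q - eval y q - ∑ l, h l * eval y (pderiv l q)) := by
      simp only [map_add, mul_add, Finset.sum_add_distrib]; ring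
    rw [e]
    refine v.map_add_le ((h₁ y h ρ hy hh hρ).trans ?_) ((h₂ y h ρ hy hh hρ).trans ?_)
    · gcongr; exact le_max_left _ _
    · gcongr; exact le_max_right _ _
  | mul_X p i hp =>
    obtain ⟨C₁, h₁⟩ := hp
    obtain ⟨C₀, h₀⟩ := exists_lipschitz v p B
    refine ⟨max (C₁ * B) C₀, fun y h ρ hy hh hρ => ?_⟩
    have e : eval (y + h) (p * X i) - eval y (p * X i) -
        ∑ l, h l * eval y (pderiv l (p * X i)) =
      (eval (y + h) p - eval y p - ∑ l, h l * eval y (pderiv l p)) * y i +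
        (eval (y + h) p - eval y p) * h i := by
      have e1 : ∑ l, h l * eval y (pderiv l (p * X i)) =
          (∑ l, h l * eval y (pderiv l p)) * y i + eval y p * h i := by
        have e2 : ∀ l, h l * eval y (pderiv l (p * X i)) =
            (h l * eval y (pderiv l p)) * y i + (if l = i then eval y p * h i else 0) := by
          intro l
          rw [Derivation.leibniz, pderiv_X]
          by_cases hl : l = i
          · subst hl
            simp
            ring
          · have : i ≠ l := fun h => hl h.symm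
            simp [hl, this]
            ring
        simp_rw [e2]
        rw [Finset.sum_add_distrib, Finset.sum_mul]
        simp
      rw [e1, map_mul, map_mul, eval_X, eval_X, Pi.add_apply]; ring
    rw [e]
    refine v.map_add_le ?_ ?_
    · rw [map_mul]
      calc _ ≤ (C₁ * ρ ^ 2) * B := mul_le_mul' (h₁ y h ρ hy hh hρ) (hy i)
        _ = (C₁ * B) * ρ ^ 2 := by rw [mul_right_comm]
        _ ≤ _ := by gcongr; exact le_max_left _ _
    · rw [map_mul]
      calc v (eval (y + h) p - eval y p) * v (h i) ≤ (C₀ * ρ) * ρ :=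
            mul_le_mul' (h₀ y h ρ hy hh hρ) (hh i)
        _ = C₀ * ρ ^ 2 := by rw [mul_assoc, sq]
        _ ≤ _ := by gcongr; exact le_max_right _ _

end Taylor

end Pool.Agent.WA
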