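import Mathlib
import Pool.Agent.WA.Taylor

set_option autoImplicit false

/-!
Linear sections through a point of a hypersurface over a discretely valued field, all of whose
rational points lie close to the given point.
-/

namespace Pool.Agent.WA

open MvPolynomial WithZero

section

variable {E σ : Type} [Field E] [Fintype σ]

/-- The combination `a x + ∑ t_i u_i` over the field itself. -/
def combE {d : ℕ} (x : σ → E) (u : Fin d → σ → E) (a : E) (t : Fin d → E) : σ → E :=
  fun l => a * x l + ∑ i, t i * u i l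

/-- A uniformiser in the multiplicative convention. -/
structure IsUnif (v : Valuation E ℤᵐ⁰) (π : E) : Prop where
  ne_zero : v π ≠ 0
  lt_one : v π < 1
  gen : ∀ y : E, y ≠ 0 → ∃ m : ℤ, v y = v π ^ m

omit [Fintype σ] in
theorem exists_pow_le {g : ℤᵐ⁰} (hg1 : g < 1) {c : ℤᵐ⁰} (hc : c ≠ 0) :
    ∃ N : ℕ, g ^ N ≤ c := by
  obtain ⟨N, hN⟩ := exists_pow_lt₀ hg1 (Units.mk0 c hc)
  exact ⟨N, hN.le⟩

theorem exists_le_zpow {g : ℤᵐ⁰} (hg0 : g ≠ 0) (hg1 : g < 1) (c : ℤᵐ⁰) :
    ∃ N : ℕ, c ≤ g ^ (-(N : ℤ)) := by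
  by_cases hc : c = 0
  · exact ⟨0, by simp [hc]⟩
  · obtain ⟨N, hN⟩ := exists_pow_le hg1 (inv_ne_zero hc)
    refine ⟨N, ?_⟩
    rw [zpow_neg, zpow_natCast]
    rw [le_inv_comm₀ (zero_lt_iff.mpr hc) (zero_lt_iff.mpr (pow_ne_zero _ hg0))]
    exact hN

/-- Diagonal sums with pairwise incongruent valuations are anisotropic. -/
theorem le_val_diag {v : Valuation E ℤᵐ⁰} {π : E} (hπ : IsUnif v π) {d : ℕ} (T : ℤ)
    (t : Fin d → E) (i : Fin d) :
    v (π ^ (T + (i : ℤ)) * t i ^ d) ≤ v (∑ j : Fin d, π ^ (T + (j : ℤ)) * t j ^ d) := by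
  classical
  have : Nonempty (Fin d) := ⟨i⟩
  have hπ0 : π ≠ 0 := fun h => hπ.ne_zero (by simp [h])
  obtain ⟨j₀, hj₀⟩ := Finite.exists_max (fun j : Fin d => v (π ^ (T + (j : ℤ)) * t j ^ d))
  by_cases h0 : v (π ^ (T + (j₀ : ℤ)) * t j₀ ^ d) = 0
  · have := hj₀ i
    rw [h0] at this
    exact this.trans zero_le
  · have hd : 0 < d := i.pos
    have htj : t j₀ ≠ 0 := by
      intro h
      apply h0
      rw [h, zero_pow hd.ne', mul_zero, map_zero]
    have h1 : v (∑ j : Fin d, π ^ (T + (j : ℤ)) * t j ^ d) = v (π ^ (T + (j₀ : ℤ)) * t j₀ ^ d) := by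
      apply Valuation.map_sum_eq_of_lt (j := j₀)
      · exact Finset.mem_univ _
      · intro j hj
        have hne : j ≠ j₀ := by simpa using hj
        refine lt_of_le_of_ne (hj₀ j) ?_
        intro heq
        have htj' : t j ≠ 0 := by
          intro h
          apply h0
          rw [← heq, h, zero_pow hd.ne', mul_zero, map_zero]
        obtain ⟨m, hm⟩ := hπ.gen (t j) htj'
        obtain ⟨m₀, hm₀⟩ := hπ.gen (t j₀) htj
        rw [map_mul, map_mul, map_zpow₀, map_zpow₀, map_pow, map_pow, hm, hm₀,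
          ← zpow_natCast, ← zpow_natCast, ← zpow_mul, ← zpow_mul, ← zpow_add₀ hπ.ne_zero,
          ← zpow_add₀ hπ.ne_zero] at heq
        have h2 : T + (j : ℤ) + m * d = T + (j₀ : ℤ) + m₀ * d :=
          (zpow_right_injective₀ (zero_lt_iff.mpr hπ.ne_zero) hπ.lt_one.ne) heq
        apply hne
        apply Fin.ext
        have h3 : ((j : ℤ) - j₀) = (m₀ - m) * d := by linarith
        have h4 : |(j : ℤ) - j₀| < d := by
          rw [abs_lt]
          have := j.2
          have := j₀.2
          constructor <;> omega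
        have h5 : m₀ - m = 0 := by
          by_contra h6
          have h7 : (1 : ℤ) ≤ |m₀ - m| := Int.one_le_abs h6
          rw [h3, abs_mul] at h4
          have h8 : |(d : ℤ)| = d := abs_of_nonneg (by positivity)
          rw [h8] at h4
          nlinarith
        rw [h5, zero_mul] at h3
        omega
    rw [h1]
    exact hj₀ i

end

end Pool.Agent.WA
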