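import Mathlib
import Pool.Agent.WA.Taylor
import Pool.Agent.WA.Diag

set_option autoImplicit false

namespace Pool.Agent.WA

open MvPolynomial WithZero

section

variable {E σ : Type} [Field E] [Fintype σ]

omit [Fintype σ] in
theorem val_combE_le (v : Valuation E ℤᵐ⁰) {d : ℕ} {x : σ → E} {u : Fin d → σ → E} {B : ℤᵐ⁰}
    (hx : ∀ l, v (x l) ≤ B) (hu : ∀ i l, v (u i l) ≤ B) {a : E} {t : Fin d → E}
    (ha : v a ≤ 1) (ht : ∀ i, v (t i) ≤ 1) (l : σ) : v (combE x u a t l) ≤ B := by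
  unfold combE
  refine v.map_add_le ?_ (v.map_sum_le fun i _ => ?_)
  · rw [map_mul]
    calc v a * v (x l) ≤ 1 * B := mul_le_mul' ha (hx l)
      _ = B := one_mul B
  · rw [map_mul]
    calc v (t i) * v (u i l) ≤ 1 * B := mul_le_mul' (ht i) (hu i l)
      _ = B := one_mul B

/-- The exponents used for scaling. -/
def expo (d A : ℕ) : ℕ → ℕ
  | 0 => 0
  | i + 1 => d * expo d A i + A

theorem expo_mono {d A : ℕ} (hd : 1 ≤ d) : Monotone (expo d A) := by
  apply monotone_nat_of_le_succ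
  intro i
  show expo d A i ≤ d * expo d A i + A
  nlinarith [Nat.zero_le (expo d A i)]

/-- A flag of directions for which the polar forms of `F` are powers of coordinates. -/
structure FlagData (F : MvPolynomial σ E) (d : ℕ) (x : σ → E) (u z : Fin d → σ → E)
    (c : Fin d → E) : Prop where
  zero : ∀ a t, eval (combE x u a t) F = 0
  ne : ∀ i, c i ≠ 0
  polar : ∀ a t i, (∀ i', i < i' → t i' = 0) →
    ∑ l, z i l * eval (combE x u a t) (pderiv l F) = c i * t i ^ (d - 1)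

theorem pow_anti {g : ℤᵐ⁰} (hg : g ≤ 1) {m n : ℕ} (h : m ≤ n) : g ^ n ≤ g ^ m :=
  pow_le_pow_of_le_one zero_le hg h

theorem exists_mul_pow_le_one {g : ℤᵐ⁰} (hg0 : g ≠ 0) (hg1 : g < 1) (C : ℤᵐ⁰) :
    ∃ N₀ : ℕ, ∀ N, N₀ ≤ N → C * g ^ N ≤ 1 := by
  obtain ⟨N₀, h⟩ := exists_le_zpow hg0 hg1 C
  refine ⟨N₀, fun N hN => ?_⟩
  calc C * g ^ N ≤ g ^ (-(N₀ : ℤ)) * g ^ N₀ := mul_le_mul' h (pow_anti hg1.le hN)
    _ = 1 := by
      rw [zpow_neg, zpow_natCast, inv_mul_cancel₀ (pow_ne_zero _ hg0)]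

theorem FlagData.polar_estimate {F : MvPolynomial σ E} {d : ℕ} {x : σ → E}
    {u z : Fin d → σ → E} {c : Fin d → E} (FD : FlagData F d x u z c)
    (v : Valuation E ℤᵐ⁰) {B : ℤᵐ⁰} (hx : ∀ l, v (x l) ≤ B) (hu : ∀ i l, v (u i l) ≤ B) :
    ∃ C : ℤᵐ⁰, ∀ (a : E) (t : Fin d → E) (i : Fin d) (ρ : ℤᵐ⁰), v a ≤ 1 → (∀ i, v (t i) ≤ 1) →
      (∀ i', i < i' → v (t i') ≤ ρ) → ρ ≤ 1 →
      v (∑ l, z i l * eval (combE x u a t) (pderiv l F) - c i * t i ^ (d - 1)) ≤ C * ρ := by
  classical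
  set G : Fin d → MvPolynomial σ E := fun i => ∑ l, C (z i l) * pderiv l F with hG
  have hGe : ∀ i (y : σ → E), eval y (G i) = ∑ l, z i l * eval y (pderiv l F) := by
    intro i y
    simp [hG, map_sum]
  choose C' hC' using fun i => exists_lipschitz v (G i) B
  obtain ⟨C, hC⟩ := Finite.exists_le C'
  refine ⟨C * B, fun a t i ρ ha ht hρ hρ1 => ?_⟩
  set t' : Fin d → E := fun j => if i < j then 0 else t j with ht'
  set h : σ → E := fun l => ∑ j, (if i < j then t j else 0) * u j l with hh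
  have e1 : combE x u a t = combE x u a t' + h := by
    funext l
    simp only [combE, Pi.add_apply, hh, ht', add_assoc, ← Finset.sum_add_distrib]
    congr 1
    apply Finset.sum_congr rfl
    intro j _
    split_ifs <;> ring
  have e2 : c i * t i ^ (d - 1) = eval (combE x u a t') (G i) := by
    rw [hGe, FD.polar a t' i (fun i' hi' => by simp [ht', hi'])]
    simp [ht']
  rw [← hGe, e2, e1]
  have h3 : ∀ j, v (t' j) ≤ 1 := by
    intro j
    simp only [ht']
    split_ifs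
    · simp
    · exact ht j
  have h4 : ∀ l, v (h l) ≤ ρ * B := by
    intro l
    refine v.map_sum_le fun j _ => ?_
    rw [map_mul]
    refine mul_le_mul' ?_ (hu j l)
    split_ifs with hj
    · exact hρ j hj
    · simp
  calc v (eval (combE x u a t' + h) (G i) - eval (combE x u a t') (G i)) ≤ C' i * (ρ * B) :=
        hC' i _ _ _ (val_combE_le v hx hu ha h3) h4 (by
          calc ρ * B ≤ 1 * B := mul_le_mul' hρ1 le_rfl
            _ = B := one_mul B)
    _ ≤ C * (ρ * B) := mul_le_mul' (hC i) le_rfl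
    _ = C * B * ρ := by rw [mul_comm ρ B, mul_assoc]

theorem FlagData.exists_section {F : MvPolynomial σ E} {d : ℕ} (hd : 1 ≤ d) {x : σ → E}
    {u z : Fin d → σ → E} {c : Fin d → E} (FD : FlagData F d x u z c)
    {v : Valuation E ℤᵐ⁰} {π : E} (hπ : IsUnif v π) {B : ℤᵐ⁰}
    (hx : ∀ l, v (x l) ≤ B) (hu : ∀ i l, v (u i l) ≤ B) (hz : ∀ i l, v (z i l) ≤ B) (N₁ : ℕ) :
    ∃ N, N₁ ≤ N ∧ ∃ (T : ℕ) (w : Fin d → σ → E), (∀ i l, v (w i l) ≤ B) ∧
      ∀ (a : E) (t : Fin d → E), v a ≤ 1 → (∀ i, v (t i) ≤ 1) →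
        v (eval (combE x w a t) F - ∑ i : Fin d, π ^ (T + (i : ℕ)) * t i ^ d) ≤
          v π ^ (T + d + d * N) := by
  classical
  set g := v π with hg
  have hg0 : g ≠ 0 := hπ.ne_zero
  have hg1 : g < 1 := hπ.lt_one
  obtain ⟨Cp, hCp⟩ := FD.polar_estimate v hx hu
  obtain ⟨Ct, hCt⟩ := exists_taylor v F B
  obtain ⟨Nc, hNc⟩ : ∃ Nc : ℕ, ∀ i, ∀ N, Nc ≤ N → v (c i)⁻¹ * g ^ N ≤ 1 := by
    choose f hf using fun i => exists_mul_pow_le_one hg0 hg1 (v (c i)⁻¹)
    obtain ⟨M, hM⟩ := Finite.exists_le f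
    exact ⟨M, fun i N hN => hf i N ((hM i).trans hN)⟩
  obtain ⟨Np, hNp⟩ := exists_mul_pow_le_one hg0 hg1 Cp
  obtain ⟨Nt, hNt⟩ := exists_mul_pow_le_one hg0 hg1 Ct
  obtain ⟨Nb, hNb⟩ := exists_mul_pow_le_one hg0 hg1 B
  set N := N₁ + Nc + Np + Nt + Nb with hN
  have hc1 : ∀ i, v (c i)⁻¹ * g ^ N ≤ 1 := fun i => hNc i N (by omega)
  have hp1 : Cp * g ^ N ≤ 1 := hNp N (by omega)
  have ht1 : Ct * g ^ N ≤ 1 := hNt N (by omega)
  have hb1 : B * g ^ N ≤ 1 := hNb N (by omega)
  refine ⟨N, by omega, ?_⟩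
  set A := (d + 3) * N + d with hA
  set α := expo d A with hα
  set L := (d - 1) * α d with hL
  set T := 2 * L + (d + 5) * N + d with hT
  have hαL : ∀ i : Fin d, (d - 1) * α i ≤ L := fun i =>
    Nat.mul_le_mul le_rfl (expo_mono hd i.2.le)
  set e : Fin d → ℕ := fun i => T + i - (d - 1) * α i with he
  have hee : ∀ i, e i + (d - 1) * α i = T + i := fun i => by
    have := hαL i
    simp only [he]
    omega
  set M := L + (d + 4) * N + d with hM
  have hNe : ∀ i, M + N ≤ e i := by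
    intro i
    have h1 := hαL i
    have h2 := hee i
    have h3 : M + N + L ≤ T := by
      rw [hM, hT]
      ring_nf
      omega
    omega
  set ε : Fin d → E := fun i => (c i)⁻¹ * π ^ e i with hε
  have hεM : ∀ i, v (ε i) ≤ g ^ (e i - N) := by
    intro i
    have h1 : e i = N + (e i - N) := by have := hNe i; omega
    simp only [hε]
    rw [map_mul, map_pow, ← hg, h1, pow_add, ← mul_assoc]
    calc v (c i)⁻¹ * g ^ N * g ^ (e i - N) ≤ 1 * g ^ (e i - N) := mul_le_mul' (hc1 i) le_rfl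
      _ = g ^ (N + (e i - N) - N) := by rw [one_mul]; congr 1; omega
  have hεM' : ∀ i, v (ε i) ≤ g ^ M := fun i =>
    (hεM i).trans (pow_anti hg1.le (by have := hNe i; omega))
  have hε1 : ∀ i, v (ε i) ≤ 1 := fun i => (hεM' i).trans (pow_le_one' hg1.le _)
  set w : Fin d → σ → E := fun i l => π ^ α i * u i l + ε i * z i l with hw
  refine ⟨T, w, ?_, ?_⟩
  · intro i l
    refine v.map_add_le ?_ ?_
    · rw [map_mul, map_pow, ← hg]
      calc g ^ α i * v (u i l) ≤ 1 * B := mul_le_mul' (pow_le_one' hg1.le _) (hu i l)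
        _ = B := one_mul B
    · rw [map_mul]
      calc v (ε i) * v (z i l) ≤ 1 * B := mul_le_mul' (hε1 i) (hz i l)
        _ = B := one_mul B
  intro a t ha ht
  set s : Fin d → E := fun i => t i * π ^ α i with hs
  have hs1 : ∀ i, v (s i) ≤ 1 := by
    intro i
    simp only [hs]
    rw [map_mul, map_pow, ← hg]
    exact mul_le_one' (ht i) (pow_le_one' hg1.le _)
  set h : σ → E := fun l => ∑ i, t i * ε i * z i l with hh
  have e1 : combE x w a t = combE x u a s + h := by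
    funext l
    simp only [combE, Pi.add_apply, hh, hs, hw, add_assoc, ← Finset.sum_add_distrib]
    congr 1
    apply Finset.sum_congr rfl
    intro j _
    ring
  have hhl : ∀ l, v (h l) ≤ g ^ M * B := by
    intro l
    refine v.map_sum_le fun j _ => ?_
    rw [map_mul, map_mul]
    calc v (t j) * v (ε j) * v (z j l) ≤ 1 * g ^ M * B :=
          mul_le_mul' (mul_le_mul' (ht j) (hεM' j)) (hz j l)
      _ = g ^ M * B := by rw [one_mul]
  have hρB : g ^ M * B ≤ B := by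
    calc g ^ M * B ≤ 1 * B := mul_le_mul' (pow_le_one' hg1.le _) le_rfl
      _ = B := one_mul B
  have hyB := val_combE_le v hx hu ha hs1
  have key1 := hCt (combE x u a s) h (g ^ M * B) hyB hhl hρB
  have key1' : v (eval (combE x u a s + h) F - eval (combE x u a s) F -
      ∑ l, h l * eval (combE x u a s) (pderiv l F)) ≤ g ^ (T + d + d * N) := by
    refine key1.trans ?_
    have h2 : Ct * (g ^ M * B) ^ 2 = (Ct * g ^ N) * (B * g ^ N) ^ 2 * g ^ (2 * M - 3 * N) := by
      have h3 : g ^ (2 * M) = g ^ (3 * N) * g ^ (2 * M - 3 * N) := by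
        rw [← pow_add]
        congr 1
        have : 3 * N ≤ 2 * M := by
          rw [hM]
          nlinarith [Nat.zero_le (d * N), Nat.zero_le L]
        omega
      have h4 : (g ^ M * B) ^ 2 = g ^ (2 * M) * B ^ 2 := by
        rw [mul_pow, ← pow_mul, mul_comm M 2]
      rw [h4, h3]
      have h5 : g ^ (3 * N) = g ^ N * (g ^ N) ^ 2 := by
        rw [← pow_mul, ← pow_add]
        congr 1
        ring
      rw [h5, mul_pow]
      ac_rfl
    rw [h2]
    calc (Ct * g ^ N) * (B * g ^ N) ^ 2 * g ^ (2 * M - 3 * N)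
        ≤ 1 * 1 ^ 2 * g ^ (2 * M - 3 * N) :=
          mul_le_mul' (mul_le_mul' ht1 (pow_le_pow_left' hb1 2)) le_rfl
      _ = g ^ (2 * M - 3 * N) := by rw [one_pow, one_mul, one_mul]
      _ ≤ g ^ (T + d + d * N) := by
        apply pow_anti hg1.le
        have : T + d + d * N + 3 * N ≤ 2 * M := by
          rw [hM, hT]
          ring_nf
          omega
        omega
  have e3 : ∑ l, h l * eval (combE x u a s) (pderiv l F) =
      ∑ i, t i * ε i * ∑ l, z i l * eval (combE x u a s) (pderiv l F) := by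
    simp only [hh, Finset.sum_mul, Finset.mul_sum]
    rw [Finset.sum_comm]
    apply Finset.sum_congr rfl
    intro i _
    apply Finset.sum_congr rfl
    intro l _
    ring
  have e4 : ∀ i : Fin d, π ^ (T + (i : ℕ)) * t i ^ d = t i * ε i * (c i * s i ^ (d - 1)) := by
    intro i
    simp only [hε, hs]
    rw [mul_pow, ← pow_mul]
    have h1 : t i ^ d = t i * t i ^ (d - 1) := by
      rw [← pow_succ']
      congr 1
      omega
    have h2 : π ^ (T + (i : ℕ)) = π ^ e i * π ^ (α i * (d - 1)) := by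
      rw [← pow_add, mul_comm (α i), hee]
    rw [h1, h2]
    have := FD.ne i
    field_simp
  have e5 : v (∑ l, h l * eval (combE x u a s) (pderiv l F) -
      ∑ i : Fin d, π ^ (T + (i : ℕ)) * t i ^ d) ≤ g ^ (T + d + d * N) := by
    rw [e3, ← Finset.sum_sub_distrib]
    refine v.map_sum_le fun i _ => ?_
    rw [e4 i, ← mul_sub, map_mul, map_mul]
    have h1 := hCp a s i (g ^ α (i + 1)) ha hs1 (by
      intro i' hi'
      simp only [hs]
      rw [map_mul, map_pow, ← hg]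
      calc v (t i') * g ^ α i' ≤ 1 * g ^ α (i + 1) :=
            mul_le_mul' (ht i') (pow_anti hg1.le (expo_mono hd (Nat.succ_le_of_lt hi')))
        _ = g ^ α (i + 1) := one_mul _) (pow_le_one' hg1.le _)
    have h2 : α (i + 1) = d * α i + A := rfl
    calc v (t i) * v (ε i) * v (∑ l, z i l * eval (combE x u a s) (pderiv l F) -
          c i * s i ^ (d - 1)) ≤ 1 * g ^ (e i - N) * (Cp * g ^ α (i + 1)) :=
          mul_le_mul' (mul_le_mul' (ht i) (hεM i)) h1
      _ = (Cp * g ^ N) * g ^ (e i - N + (α (i + 1) - N)) := by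
        have h3 : g ^ α (i + 1) = g ^ N * g ^ (α (i + 1) - N) := by
          rw [← pow_add]
          congr 1
          have : N ≤ α (i + 1) := by
            rw [h2, hA]
            nlinarith [Nat.zero_le (d * N), Nat.zero_le (d * α i)]
          omega
        rw [h3, pow_add g (e i - N) (α (i + 1) - N), one_mul]
        generalize g ^ (e i - N) = X₁
        generalize g ^ (α (i + 1) - N) = X₂
        generalize g ^ N = X₃
        ac_rfl
      _ ≤ 1 * g ^ (e i - N + (α (i + 1) - N)) := mul_le_mul' hp1 le_rfl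
      _ ≤ g ^ (T + d + d * N) := by
        rw [one_mul]
        apply pow_anti hg1.le
        have h4 := hee i
        have h5 := hNe i
        have h6 : (d - 1) * α i ≤ d * α i := Nat.mul_le_mul (Nat.sub_le _ _) le_rfl
        have h7 : A = d * N + 3 * N + d := by rw [hA]; ring
        omega
  have e6 : eval (combE x w a t) F - ∑ i : Fin d, π ^ (T + (i : ℕ)) * t i ^ d =
      (eval (combE x u a s + h) F - eval (combE x u a s) F -
      ∑ l, h l * eval (combE x u a s) (pderiv l F)) +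
      (∑ l, h l * eval (combE x u a s) (pderiv l F) -
      ∑ i : Fin d, π ^ (T + (i : ℕ)) * t i ^ d) := by
    rw [FD.zero a s, e1]
    ring
  rw [e6]
  exact v.map_add_le key1' e5

theorem FlagData.concentrated {F : MvPolynomial σ E} {d : ℕ} (hd : 1 ≤ d) {x : σ → E}
    {u z : Fin d → σ → E} {c : Fin d → E} (FD : FlagData F d x u z c)
    {v : Valuation E ℤᵐ⁰} {π : E} (hπ : IsUnif v π) {B : ℤᵐ⁰} (hB1 : 1 ≤ B)
    (hx : ∀ l, v (x l) ≤ B) (hu : ∀ i l, v (u i l) ≤ B) (hz : ∀ i l, v (z i l) ≤ B)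
    {θ : ℤᵐ⁰} (hθ : θ ≠ 0) :
    ∃ (w : Fin d → σ → E) (ρ : ℤᵐ⁰), ρ ≠ 0 ∧ ρ ≤ 1 ∧ (∀ i l, v (w i l) ≤ B) ∧
      ∀ (x' : σ → E) (w' : Fin d → σ → E), (∀ l, v (x' l - x l) ≤ ρ) →
        (∀ i l, v (w' i l - w i l) ≤ ρ) →
        ∀ (a : E) (t : Fin d → E), v a ≤ 1 → (∀ i, v (t i) ≤ 1) →
          eval (combE x' w' a t) F = 0 → ∀ i, v (t i) ≤ θ := by
  classical
  have hg0 : v π ≠ 0 := hπ.ne_zero
  have hg1 : v π < 1 := hπ.lt_one
  obtain ⟨N₁, hN₁⟩ := exists_pow_le hg1 hθ
  obtain ⟨N, hN, T, w, hwB, hw⟩ := FD.exists_section hd hπ hx hu hz N₁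
  obtain ⟨C₃, hC₃⟩ := exists_lipschitz v F B
  obtain ⟨N₃, hN₃⟩ := exists_mul_pow_le_one hg0 hg1 C₃
  refine ⟨w, v π ^ (T + d + d * N + N₃), pow_ne_zero _ hg0, pow_le_one' hg1.le _, hwB, ?_⟩
  intro x' w' hx' hw' a t ha ht h0 i
  have e1 : combE x' w' a t = combE x w a t + combE (x' - x) (w' - w) a t := by
    funext l
    simp only [combE, Pi.add_apply, Pi.sub_apply, mul_sub, Finset.sum_sub_distrib]
    ring
  have h1 : ∀ l, v (combE (x' - x) (w' - w) a t l) ≤ v π ^ (T + d + d * N + N₃) :=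
    val_combE_le v (by simpa using hx') (by simpa using hw') ha ht
  have h2 := hC₃ (combE x w a t) (combE (x' - x) (w' - w) a t) _
    (val_combE_le v hx hwB ha ht) h1 ((pow_le_one' hg1.le _).trans hB1)
  rw [← e1, h0, zero_sub, Valuation.map_neg] at h2
  have h3 : v (eval (combE x w a t) F) ≤ v π ^ (T + d + d * N) := by
    refine h2.trans ?_
    rw [pow_add (v π) (T + d + d * N) N₃]
    calc C₃ * (v π ^ (T + d + d * N) * v π ^ N₃) = (C₃ * v π ^ N₃) * v π ^ (T + d + d * N) := by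
          generalize v π ^ (T + d + d * N) = X₁
          generalize v π ^ N₃ = X₂
          ac_rfl
      _ ≤ 1 * v π ^ (T + d + d * N) := mul_le_mul' (hN₃ N₃ le_rfl) le_rfl
      _ = _ := one_mul _
  have h4 : v (∑ j : Fin d, π ^ (T + (j : ℕ)) * t j ^ d) ≤ v π ^ (T + d + d * N) := by
    have h5 := hw a t ha ht
    have e2 : ∑ j : Fin d, π ^ (T + (j : ℕ)) * t j ^ d = eval (combE x w a t) F -
      (eval (combE x w a t) F - ∑ j : Fin d, π ^ (T + (j : ℕ)) * t j ^ d) := by ring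
    rw [e2]
    exact v.map_sub_le h3 h5
  have h5 := le_val_diag hπ (T : ℤ) t i
  have e3 : ∀ j : Fin d, π ^ ((T : ℤ) + ((j : ℕ) : ℤ)) = π ^ (T + (j : ℕ)) := by
    intro j
    rw [← Nat.cast_add, zpow_natCast]
  simp_rw [e3] at h5
  have h6 := h5.trans h4
  rw [map_mul, map_pow, map_pow] at h6
  have h7 : v π ^ (T + (i : ℕ)) * v (t i) ^ d ≤ v π ^ (T + (i : ℕ)) * (v π ^ N) ^ d := by
    refine h6.trans ?_
    rw [← pow_mul, ← pow_add]
    apply pow_anti hg1.le
    have := i.2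
    have h8 : N * d = d * N := mul_comm _ _
    omega
  have h8 : v (t i) ^ d ≤ (v π ^ N) ^ d :=
    (mul_le_mul_iff_right₀ (zero_lt_iff.mpr (pow_ne_zero _ hg0))).mp h7
  have h9 : v (t i) ≤ v π ^ N := (pow_le_pow_iff_left₀ zero_le zero_le (by omega)).mp h8
  exact (h9.trans (pow_anti hg1.le hN)).trans hN₁

end

end Pool.Agent.WA
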