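import Mathlib
import Pool.Agent.WA.Taylor
import Pool.Agent.WA.Section

set_option autoImplicit false

/-!
Approximation of zeros over a complete discretely valued field by algebraic zeros.
-/

namespace Pool.Agent.WA

open MvPolynomial WithZero Topology

section Val

variable {E : Type} [Field E] [hv : Valued E ℤᵐ⁰]

theorem ball_mem_nhds {π : E} (hπ : IsUnif hv.v π) (x : E) {c : ℤᵐ⁰} (hc : c ≠ 0) :
    {y : E | hv.v (y - x) ≤ c} ∈ 𝓝 x := by
  obtain ⟨N, hN⟩ := exists_pow_le hπ.lt_one hc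
  rw [Valued.mem_nhds]
  have h0 : hv.v.restrict (π ^ N) ≠ 0 := by
    rw [Valuation.ne_zero_iff]
    exact pow_ne_zero _ ((Valuation.ne_zero_iff _).mp hπ.ne_zero)
  refine ⟨Units.mk0 _ h0, fun y hy => ?_⟩
  have h1 : hv.v.restrict (y - x) < hv.v.restrict (π ^ N) := hy
  rw [Valuation.restrict_lt_iff, map_pow] at h1
  exact h1.le.trans hN

theorem exists_ball_subset {π : E} (hπ : IsUnif hv.v π) {x : E} {s : Set E} (hs : s ∈ 𝓝 x) :
    ∃ c : ℤᵐ⁰, c ≠ 0 ∧ {y : E | hv.v (y - x) ≤ c} ⊆ s := by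
  rw [Valued.mem_nhds] at hs
  obtain ⟨γ, hγ⟩ := hs
  refine ⟨MonoidWithZeroHom.ValueGroup₀.embedding γ.1 * hv.v π,
    mul_ne_zero (by simp) hπ.ne_zero, fun y hy => hγ ?_⟩
  show hv.v.restrict (y - x) < γ.1
  rw [Valuation.restrict_lt_iff_lt_embedding]
  refine lt_of_le_of_lt hy ?_
  have h1 : MonoidWithZeroHom.ValueGroup₀.embedding γ.1 ≠ (0 : ℤᵐ⁰) := by simp
  calc MonoidWithZeroHom.ValueGroup₀.embedding γ.1 * hv.v π
      < MonoidWithZeroHom.ValueGroup₀.embedding γ.1 * 1 := by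
        rw [mul_lt_mul_iff_right₀ (zero_lt_iff.mpr h1)]
        exact hπ.lt_one
    _ = _ := mul_one _

theorem exists_limit [CompleteSpace E] {π : E} (hπ : IsUnif hv.v π) (s : ℕ → E) (c : ℤᵐ⁰)
    (h : ∀ n, hv.v (s (n + 1) - s n) ≤ c * hv.v π ^ n) :
    ∃ l, ∀ n, hv.v (l - s n) ≤ c * hv.v π ^ n := by
  have h1 : ∀ n k, hv.v (s (n + k) - s n) ≤ c * hv.v π ^ n := by
    intro n k
    induction k with
    | zero => simp
    | succ k ih =>
      have e : s (n + (k + 1)) - s n = (s (n + k + 1) - s (n + k)) + (s (n + k) - s n) := by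
        rw [← add_assoc]; ring
      rw [e]
      refine hv.v.map_add_le ((h (n + k)).trans ?_) ih
      exact mul_le_mul' le_rfl (pow_anti hπ.lt_one.le (by omega))
  have h2 : ∀ n m, n ≤ m → hv.v (s m - s n) ≤ c * hv.v π ^ n := by
    intro n m hnm
    obtain ⟨k, rfl⟩ := Nat.exists_eq_add_of_le hnm
    exact h1 n k
  have hsmall : ∀ δ : ℤᵐ⁰, δ ≠ 0 → ∃ N, ∀ n, N ≤ n → c * hv.v π ^ n ≤ δ := by
    intro δ hδ
    obtain ⟨N₀, hN₀⟩ := exists_mul_pow_le_one hπ.ne_zero hπ.lt_one (c * δ⁻¹)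
    refine ⟨N₀, fun n hn => ?_⟩
    have := hN₀ n hn
    calc c * hv.v π ^ n = (c * δ⁻¹ * hv.v π ^ n) * δ := by
          rw [mul_right_comm, inv_mul_cancel_right₀ hδ]
      _ ≤ 1 * δ := mul_le_mul' this le_rfl
      _ = δ := one_mul δ
  have hC : CauchySeq s := by
    rw [CauchySeq, Valued.cauchy_iff]
    refine ⟨inferInstance, fun γ => ?_⟩
    have h3 : MonoidWithZeroHom.ValueGroup₀.embedding γ.1 * hv.v π ≠ (0 : ℤᵐ⁰) :=
      mul_ne_zero (by simp) hπ.ne_zero
    obtain ⟨N, hN⟩ := hsmall _ h3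
    refine ⟨s '' Set.Ici N, Filter.image_mem_map (Filter.mem_atTop N), ?_⟩
    have h5 : hv.v π * MonoidWithZeroHom.ValueGroup₀.embedding γ.1 <
        MonoidWithZeroHom.ValueGroup₀.embedding γ.1 := by
      have h1 : MonoidWithZeroHom.ValueGroup₀.embedding γ.1 ≠ (0 : ℤᵐ⁰) := by simp
      calc hv.v π * MonoidWithZeroHom.ValueGroup₀.embedding γ.1
          < 1 * MonoidWithZeroHom.ValueGroup₀.embedding γ.1 := by
            rw [mul_lt_mul_iff_left₀ (zero_lt_iff.mpr h1)]
            exact hπ.lt_one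
        _ = _ := one_mul _
    rintro _ ⟨m, hm, rfl⟩ _ ⟨n, hn, rfl⟩
    rw [Valuation.restrict_lt_iff_lt_embedding]
    refine lt_of_le_of_lt ?_ h5
    rw [mul_comm]
    rcases le_total m n with hmn | hmn
    · exact (h2 m n hmn).trans (hN m hm)
    · rw [← Valuation.map_neg, neg_sub]
      exact (h2 n m hmn).trans (hN n hn)
  obtain ⟨l, hl⟩ := cauchySeq_tendsto_of_complete hC
  refine ⟨l, fun n => ?_⟩
  by_cases hc : c = 0
  · have h4 : ∀ m, n ≤ m → s m = s n := by
      intro m hm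
      have := h2 n m hm
      rw [hc, zero_mul, le_zero_iff, Valuation.zero_iff, sub_eq_zero] at this
      exact this
    have h5 : l = s n := by
      refine tendsto_nhds_unique hl (tendsto_const_nhds.congr' ?_)
      filter_upwards [Filter.eventually_ge_atTop n] with m hm
      exact (h4 m hm).symm
    simp [h5]
  · have h6 : c * hv.v π ^ n ≠ 0 := mul_ne_zero hc (pow_ne_zero _ hπ.ne_zero)
    have h7 := hl (ball_mem_nhds hπ l h6)
    rw [Filter.mem_map, Filter.mem_atTop_sets] at h7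
    obtain ⟨m, hm⟩ := h7
    have h8 : hv.v (s (max m n) - l) ≤ c * hv.v π ^ n := hm _ (le_max_left _ _)
    have e : l - s n = (s (max m n) - s n) - (s (max m n) - l) := by ring
    rw [e]
    exact hv.v.map_sub_le (h2 n _ (le_max_right _ _)) h8

end Val

section Newton

variable {E σ : Type} [Field E] [hv : Valued E ℤᵐ⁰] [Fintype σ]

omit hv [Fintype σ] in
theorem exists_common_bound [Finite σ] (v : Valuation E ℤᵐ⁰) (x : σ → E) :
    ∃ B : ℤᵐ⁰, 1 ≤ B ∧ ∀ l, v (x l) ≤ B := by
  obtain ⟨M, hM⟩ := Finite.exists_le (fun l => v (x l))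
  exact ⟨max 1 M, le_max_left _ _, fun l => (hM l).trans (le_max_right _ _)⟩

theorem newton [CompleteSpace E] [DecidableEq σ] {π : E} (hπ : IsUnif hv.v π)
    (F : MvPolynomial σ E) (x : σ → E) (hFx : eval x F = 0) (i : σ)
    (hi : eval x (pderiv i F) ≠ 0) {θ : ℤᵐ⁰} (hθ : θ ≠ 0) :
    ∃ ρ : ℤᵐ⁰, ρ ≠ 0 ∧ ∀ a : σ → E, (∀ l, hv.v (a l - x l) ≤ ρ) →
      ∃ s, hv.v s ≤ θ ∧ eval (a + Pi.single i s) F = 0 ∧
        ∃ s', eval (a + Pi.single i s') F ≠ 0 := by
  obtain ⟨B, hB1, hB⟩ := exists_common_bound hv.v x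
  obtain ⟨C₁, hC₁⟩ := exists_taylor hv.v F B
  obtain ⟨C₂, hC₂⟩ := exists_lipschitz hv.v F B
  obtain ⟨C₃, hC₃⟩ := exists_lipschitz hv.v (pderiv i F) B
  set g := hv.v π with hg
  have hg0 : g ≠ 0 := hπ.ne_zero
  have hg1 : g < 1 := hπ.lt_one
  set μ := hv.v (eval x (pderiv i F)) with hμ
  have hμ0 : μ ≠ 0 := (Valuation.ne_zero_iff _).mpr hi
  have hgμ : g * μ ≠ 0 := mul_ne_zero hg0 hμ0
  obtain ⟨N₀, hN₀⟩ := exists_pow_le hg1 hθ
  obtain ⟨N₁, hN₁⟩ := exists_mul_pow_le_one hg0 hg1 (C₁ * (g * μ)⁻¹)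
  obtain ⟨N₃, hN₃⟩ := exists_mul_pow_le_one hg0 hg1 (C₃ * (g * μ)⁻¹)
  set r := g ^ (N₀ + N₁ + N₃) with hr
  have hr0 : r ≠ 0 := pow_ne_zero _ hg0
  have hrθ : r ≤ θ := (pow_anti hg1.le (by omega)).trans hN₀
  have hr1 : r ≤ 1 := pow_le_one' hg1.le _
  have aux : ∀ C δ ρ : ℤᵐ⁰, δ ≠ 0 → C * δ⁻¹ * ρ ≤ 1 → C * ρ ≤ δ := by
    intro C δ ρ hδ h
    calc C * ρ = (C * δ⁻¹ * ρ) * δ := by rw [mul_right_comm, inv_mul_cancel_right₀ hδ]
      _ ≤ 1 * δ := mul_le_mul' h le_rfl
      _ = δ := one_mul δ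
  have h1 : C₁ * r ≤ g * μ := aux _ _ _ hgμ (hN₁ _ (by omega))
  have h3 : C₃ * r ≤ g * μ := aux _ _ _ hgμ (hN₃ _ (by omega))
  obtain ⟨N₂, hN₂⟩ := exists_mul_pow_le_one hg0 hg1 (C₂ * (r * μ)⁻¹)
  set ρ := g ^ (N₂ + (N₀ + N₁ + N₃)) with hρ
  have hρr : ρ ≤ r := pow_anti hg1.le (by omega)
  have h2 : C₂ * ρ ≤ r * μ := aux _ _ _ (mul_ne_zero hr0 hμ0) (hN₂ _ (by omega))
  have hgμlt : g * μ < μ := by
    calc g * μ < 1 * μ := by
          rw [mul_lt_mul_iff_left₀ (zero_lt_iff.mpr hμ0)]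
          exact hg1
      _ = μ := one_mul μ
  refine ⟨ρ, pow_ne_zero _ hg0, fun a ha => ?_⟩
  have haB : ∀ l, hv.v (a l) ≤ B := by
    intro l
    have e : a l = (a l - x l) + x l := by ring
    rw [e]
    exact hv.v.map_add_le ((ha l).trans ((hρr.trans hr1).trans hB1)) (hB l)
  have e0 : a = x + (a - x) := by funext l; simp
  have hax : ∀ l, hv.v ((a - x) l) ≤ ρ := ha
  have hFa : hv.v (eval a F) ≤ r * μ := by
    have h4 := hC₂ x (a - x) ρ hB hax ((hρr.trans hr1).trans hB1)
    rw [← e0, hFx, sub_zero] at h4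
    exact h4.trans h2
  set m := eval a (pderiv i F) with hm
  have hmμ : hv.v m = μ := by
    have h4 := hC₃ x (a - x) ρ hB hax ((hρr.trans hr1).trans hB1)
    rw [← e0] at h4
    have h5 : hv.v (m - eval x (pderiv i F)) < hv.v (eval x (pderiv i F)) := by
      refine lt_of_le_of_lt h4 ?_
      refine lt_of_le_of_lt ?_ hgμlt
      exact (mul_le_mul' le_rfl hρr).trans h3
    exact Valuation.map_eq_of_sub_lt _ h5
  have hm0 : m ≠ 0 := by
    intro h
    rw [h, map_zero] at hmμ
    exact hμ0 hmμ.symm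
  have hsingle : ∀ (s : E) (c : ℤᵐ⁰), hv.v s ≤ c → ∀ l, hv.v ((Pi.single i s : σ → E) l) ≤ c := by
    intro s c hs l
    by_cases hl : l = i
    · subst hl; simpa using hs
    · simp [hl]
  have hyB : ∀ s : E, hv.v s ≤ r → ∀ l, hv.v ((a + Pi.single i s : σ → E) l) ≤ B := by
    intro s hs l
    exact hv.v.map_add_le (haB l) (hsingle s B (hs.trans (hr1.trans hB1)) l)
  obtain ⟨S, hS0, hS1⟩ : ∃ S : ℕ → E, S 0 = 0 ∧
      ∀ n, S (n + 1) = S n - eval (a + Pi.single i (S n)) F / m :=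
    ⟨fun n => Nat.rec 0 (fun _ s => s - eval (a + Pi.single i s) F / m) n, rfl, fun n => rfl⟩
  have hinv : ∀ n, hv.v (S n) ≤ r ∧ hv.v (eval (a + Pi.single i (S n)) F) ≤ r * μ * g ^ n := by
    intro n
    induction n with
    | zero =>
      rw [hS0]
      refine ⟨by simp, ?_⟩
      simpa using hFa
    | succ n ih =>
      obtain ⟨ih1, ih2⟩ := ih
      set y := a + Pi.single i (S n) with hy
      set δ := - (eval y F / m) with hδ
      have hδv : hv.v δ ≤ r * g ^ n := by
        rw [hδ, Valuation.map_neg, map_div₀, hmμ]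
        rw [div_le_iff₀ (zero_lt_iff.mpr hμ0)]
        calc hv.v (eval y F) ≤ r * μ * g ^ n := ih2
          _ = r * g ^ n * μ := mul_right_comm _ _ _
      have hδr : hv.v δ ≤ r := hδv.trans (by
        calc r * g ^ n ≤ r * 1 := mul_le_mul' le_rfl (pow_le_one' hg1.le _)
          _ = r := mul_one r)
      have hSn : S (n + 1) = S n + δ := by rw [hS1, hδ, sub_eq_add_neg]
      refine ⟨?_, ?_⟩
      · rw [hSn]
        exact hv.v.map_add_le ih1 hδr
      · have e1 : a + Pi.single i (S (n + 1)) = y + Pi.single i δ := by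
          rw [hSn, Pi.single_add, ← add_assoc]
        rw [e1]
        have h5 := hC₁ y (Pi.single i δ) (r * g ^ n) (hyB _ ih1) (hsingle _ _ hδv) (by
          calc r * g ^ n ≤ 1 * 1 := mul_le_mul' hr1 (pow_le_one' hg1.le _)
            _ = 1 := one_mul 1
            _ ≤ B := hB1)
        have e2 : ∑ l, (Pi.single i δ : σ → E) l * eval y (pderiv l F) =
            δ * eval y (pderiv i F) := by
          rw [Finset.sum_eq_single i]
          · simp
          · intro l _ hl
            simp [hl]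
          · simp
        rw [e2] at h5
        have e3 : eval (y + Pi.single i δ) F =
            (eval (y + Pi.single i δ) F - eval y F - δ * eval y (pderiv i F)) +
              eval y F * ((m - eval y (pderiv i F)) / m) := by
          rw [hδ]
          field_simp
          ring
        rw [e3]
        refine hv.v.map_add_le (h5.trans ?_) ?_
        · calc C₁ * (r * g ^ n) ^ 2 = (C₁ * r) * (r * (g ^ n * g ^ n)) := by
                generalize g ^ n = G
                rw [sq]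
                ac_rfl
            _ ≤ (g * μ) * (r * (g ^ n * 1)) := by
                gcongr
                exact pow_le_one' hg1.le _
            _ = r * μ * g ^ (n + 1) := by
                rw [pow_succ, mul_one]
                generalize g ^ n = G
                ac_rfl
        · rw [map_mul, map_div₀, hmμ]
          have h6 : hv.v (m - eval y (pderiv i F)) ≤ g * μ := by
            rw [← Valuation.map_neg, neg_sub]
            exact (hC₃ a (Pi.single i (S n)) r haB (hsingle _ _ ih1) (hr1.trans hB1)).trans h3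
          have h7 : hv.v (m - eval y (pderiv i F)) / μ ≤ g := by
            rw [div_le_iff₀ (zero_lt_iff.mpr hμ0)]
            exact h6
          calc _ ≤ (r * μ * g ^ n) * g := mul_le_mul' ih2 h7
            _ = r * μ * g ^ (n + 1) := by rw [pow_succ, ← mul_assoc]
  have hdiff : ∀ n, hv.v (S (n + 1) - S n) ≤ r * g ^ n := by
    intro n
    have e1 : S (n + 1) - S n = - (eval (a + Pi.single i (S n)) F / m) := by
      rw [hS1]; ring
    rw [e1, Valuation.map_neg, map_div₀, hmμ, div_le_iff₀ (zero_lt_iff.mpr hμ0)]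
    have h4 := (hinv n).2
    rw [mul_right_comm] at h4
    exact h4
  obtain ⟨s, hs⟩ := exists_limit hπ S r hdiff
  have hsr : hv.v s ≤ r := by
    have := hs 0
    simpa [hS0] using this
  refine ⟨s, hsr.trans hrθ, ?_, ?_⟩
  · by_contra hne
    have hne' : hv.v (eval (a + Pi.single i s) F) ≠ 0 := (Valuation.ne_zero_iff _).mpr hne
    have hle : ∀ n, hv.v (eval (a + Pi.single i s) F) ≤ max (C₂ * r) (r * μ) * g ^ n := by
      intro n
      have e1 : a + Pi.single i s = (a + Pi.single i (S n)) + Pi.single i (s - S n) := by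
        rw [add_assoc, ← Pi.single_add]
        congr 2
        ring
      have h4 := hC₂ (a + Pi.single i (S n)) (Pi.single i (s - S n)) (r * g ^ n)
        (hyB _ (hinv n).1) (hsingle _ _ (hs n)) (by
          calc r * g ^ n ≤ 1 * 1 := mul_le_mul' hr1 (pow_le_one' hg1.le _)
            _ = 1 := one_mul 1
            _ ≤ B := hB1)
      rw [← e1] at h4
      have e2 : eval (a + Pi.single i s) F =
          (eval (a + Pi.single i s) F - eval (a + Pi.single i (S n)) F) +
            eval (a + Pi.single i (S n)) F := by ring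
      rw [e2]
      refine hv.v.map_add_le (h4.trans ?_) ((hinv n).2.trans ?_)
      · rw [← mul_assoc]
        gcongr
        exact le_max_left _ _
      · gcongr
        exact le_max_right _ _
    obtain ⟨N, hN⟩ := exists_mul_pow_le_one hg0 hg1
      (max (C₂ * r) (r * μ) * (g * hv.v (eval (a + Pi.single i s) F))⁻¹)
    have h4 := aux _ _ _ (mul_ne_zero hg0 hne') (hN N le_rfl)
    have h5 := (hle N).trans h4
    have h6 : g * hv.v (eval (a + Pi.single i s) F) < hv.v (eval (a + Pi.single i s) F) := by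
      calc g * hv.v (eval (a + Pi.single i s) F) < 1 * hv.v (eval (a + Pi.single i s) F) := by
            rw [mul_lt_mul_iff_left₀ (zero_lt_iff.mpr hne')]
            exact hg1
        _ = _ := one_mul _
    exact absurd h5 (not_le.mpr h6)
  · by_contra hall
    simp only [not_exists, not_not] at hall
    have hπr : hv.v (π ^ (N₀ + N₁ + N₃)) ≤ r := by rw [map_pow]
    have h4 := hC₁ a (Pi.single i (π ^ (N₀ + N₁ + N₃))) r haB (hsingle _ _ hπr) (hr1.trans hB1)
    have e2 : ∑ l, (Pi.single i (π ^ (N₀ + N₁ + N₃)) : σ → E) l * eval a (pderiv l F) =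
        π ^ (N₀ + N₁ + N₃) * m := by
      rw [Finset.sum_eq_single i]
      · simp [hm]
      · intro l _ hl
        simp [hl]
      · simp
    have h5 : eval a F = 0 := by simpa using hall 0
    rw [hall, h5, e2, sub_zero, zero_sub, Valuation.map_neg, map_mul, map_pow, hmμ, ← hg,
      ← hr] at h4
    have h6 : C₁ * r ^ 2 ≤ r * (g * μ) := by
      rw [sq, ← mul_assoc, mul_comm r]
      exact mul_le_mul' h1 le_rfl
    have h7 : r * (g * μ) < r * μ := by
      rw [mul_lt_mul_iff_right₀ (zero_lt_iff.mpr hr0)]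
      exact hgμlt
    exact absurd (h4.trans h6) (not_le.mpr h7)

end Newton

end Pool.Agent.WA
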