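import Mathlib
import Pool.Agent.WA.Newton
import Pool.Agent.WA.Flag

set_option autoImplicit false

/-!
Local data near a point of a smooth hypersurface over a completion.
-/

namespace Pool.Agent.WA

open MvPolynomial WithZero Topology

section

variable {K E σ : Type} [Field K] [Field E] [Algebra K E] [Fintype σ]

omit [Fintype σ] in
theorem SmoothForm.map {K L : Type} [Field K] [Field L] [Algebra K L] {F : MvPolynomial σ K}
    (hF : SmoothForm F) : SmoothForm (F.map (algebraMap K L)) := by
  intro M _ _ x hx hd
  let _ : Algebra K M := ((algebraMap L M).comp (algebraMap K L)).toAlgebra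
  have : IsScalarTower K L M := IsScalarTower.of_algebraMap_eq (fun _ => rfl)
  apply hF M x
  · rw [aeval_map_algebraMap] at hx
    exact hx
  · intro i
    have h := hd i
    rw [pderiv_map, aeval_map_algebraMap] at h
    exact h

/-- The restriction of a polynomial to a line parallel to a coordinate axis. -/
noncomputable def restrictLine [DecidableEq σ] (F : MvPolynomial σ K) (a : σ → K) (i : σ) :
    Polynomial K :=
  aeval (fun l => Polynomial.C (a l) + (if l = i then Polynomial.X else 0)) F

omit [Fintype σ] in
theorem aeval_restrictLine [DecidableEq σ] (F : MvPolynomial σ K) (a : σ → K) (i : σ) (s : E) :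
    Polynomial.aeval s (restrictLine F a i) =
      eval ((fun l => algebraMap K E (a l)) + Pi.single i s) (F.map (algebraMap K E)) := by
  unfold restrictLine
  rw [eval_map, ← aeval_def]
  have h := MvPolynomial.comp_aeval_apply
    (fun l => Polynomial.C (a l) + (if l = i then Polynomial.X else 0) : σ → Polynomial K)
    (Polynomial.aeval s : Polynomial K →ₐ[K] E) F
  rw [h]
  congr 2
  funext l
  by_cases h : l = i
  · subst h
    simp
  · simp [h]

theorem exists_flagData [Infinite K] (hC1 : C1 K) [hv : Valued E ℤᵐ⁰] [CompleteSpace E]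
    {π : E} (hπ : IsUnif hv.v π)
    (hdense : ∀ (e : E) (c : ℤᵐ⁰), c ≠ 0 → ∃ k : K, hv.v (algebraMap K E k - e) ≤ c)
    (F : MvPolynomial σ K) (d : ℕ) (hd : 0 < d) (hF : F.IsHomogeneous d) (hsm : SmoothForm F)
    (hcard : (2 * d).choose (d + 1) + (2 * d - 1).choose d + 1 ≤ Fintype.card σ)
    (x : σ → E) (hx0 : x ≠ 0) (hx : eval x (F.map (algebraMap K E)) = 0) {θ : ℤᵐ⁰} (hθ : θ ≠ 0) :
    ∃ (x' : σ → E) (u z : Fin d → σ → E) (c : Fin d → E),
      FlagData (F.map (algebraMap K E)) d x' u z c ∧ ∀ l, hv.v (x' l - x l) ≤ θ := by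
  classical
  obtain ⟨i, hi⟩ : ∃ i, eval x (pderiv i (F.map (algebraMap K E))) ≠ 0 := by
    by_contra hall
    simp only [not_exists, not_not] at hall
    apply hx0
    apply hsm E x
    · rw [eval_map, ← aeval_def] at hx
      exact hx
    · intro i
      have h := hall i
      rw [pderiv_map, eval_map, ← aeval_def] at h
      exact h
  obtain ⟨ρ, hρ0, hρ⟩ := newton hπ (F.map (algebraMap K E)) x hx i hi hθ
  have hmin : min ρ θ ≠ 0 := by
    rcases min_choice ρ θ with h | h <;> rw [h] <;> assumption
  choose a ha using fun l => hdense (x l) (min ρ θ) hmin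
  obtain ⟨s, hs, hFs, s', hs'⟩ := hρ (fun l => algebraMap K E (a l))
    (fun l => (ha l).trans (min_le_left _ _))
  rw [← aeval_restrictLine] at hFs hs'
  have hP0 : restrictLine F a i ≠ 0 := by
    intro h
    rw [h, map_zero] at hs'
    exact hs' rfl
  have halg : IsIntegral K s := by
    rw [← isAlgebraic_iff_isIntegral]
    exact ⟨_, hP0, hFs⟩
  let K' := IntermediateField.adjoin K {s}
  have : FiniteDimensional K K' := IntermediateField.adjoin.finiteDimensional halg
  have hC1' : C1 K' := hC1.of_finite
  have : Infinite K' := Infinite.of_injective (algebraMap K K') (algebraMap K K').injective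
  let s₁ : K' := ⟨s, IntermediateField.mem_adjoin_simple_self K s⟩
  let x₁ : σ → K' := (fun l => algebraMap K K' (a l)) + Pi.single i s₁
  have hx₁ : ∀ l, algebraMap K' E (x₁ l) =
      ((fun l => algebraMap K E (a l)) + Pi.single i s : σ → E) l := by
    intro l
    simp only [x₁, Pi.add_apply, map_add]
    congr 1
    by_cases h : l = i
    · subst h
      simp [s₁]
    · simp [h]
  have hFx₁ : eval x₁ (F.map (algebraMap K K')) = 0 := by
    apply (algebraMap K' E).injective
    rw [map_zero, ← aeval_algebraMap_eq, aeval_map_algebraMap]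
    rw [aeval_restrictLine, eval_map, ← aeval_def] at hFs
    rw [← hFs]
    congr 1
    congr 1
    funext l
    exact hx₁ l
  obtain ⟨u, z, c, hc, h⟩ := exists_flag hC1' (F.map (algebraMap K K')) d hd
    (hF.map _) hsm.map hcard x₁ hFx₁
  refine ⟨fun l => algebraMap K' E (x₁ l), fun i l => algebraMap K' E (u i l),
    fun i l => algebraMap K' E (z i l), fun i => algebraMap K' E (c i), ⟨?_, ?_, ?_⟩, ?_⟩
  · intro b t
    have h1 := (h E b t).1
    rw [aeval_map_algebraMap] at h1
    rw [eval_map, ← aeval_def]
    exact h1
  · intro j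
    exact (map_ne_zero _).mpr (hc j)
  · intro b t j hj
    have h1 := (h E b t).2 j hj
    rw [← h1]
    apply Finset.sum_congr rfl
    intro l _
    rw [pderiv_map, pderiv_map, aeval_map_algebraMap, eval_map, ← aeval_def]
    rfl
  · intro l
    show hv.v (algebraMap K' E (x₁ l) - x l) ≤ θ
    rw [hx₁ l]
    have e : ((fun l => algebraMap K E (a l)) + Pi.single i s : σ → E) l - x l =
        (algebraMap K E (a l) - x l) + (Pi.single i s : σ → E) l := by
      simp only [Pi.add_apply]; ring
    rw [e]
    refine hv.v.map_add_le ((ha l).trans (min_le_right _ _)) ?_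
    by_cases hl : l = i
    · subst hl; simpa using hs
    · simp [hl]

end

end Pool.Agent.WA
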