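import Mathlib
import Pool.Agent.WA.Newton

set_option autoImplicit false

/-!
Simultaneous approximation in finitely many completions of a field with discrete valuations.
-/

namespace Pool.Agent.WA

open WithZero Topology

section

variable {K : Type} [Field K]

/-- The real absolute value attached to a discrete valuation. -/
noncomputable def absOf (v : Valuation K ℤᵐ⁰) : AbsoluteValue K ℝ where
  toFun x := (WithZeroMulInt.toNNReal (e := 2) two_ne_zero (v x) : ℝ)
  map_mul' x y := by simp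
  nonneg' x := NNReal.coe_nonneg _
  eq_zero' x := by
    constructor
    · intro h
      by_contra hx
      have h1 := WithZeroMulInt.toNNReal_pos (e := 2) (m := v x) two_ne_zero
        ((Valuation.ne_zero_iff _).mpr hx)
      rw [← NNReal.coe_pos] at h1
      exact h1.ne' h
    · rintro rfl
      simp
  add_le' x y := by
    have hmono := (WithZeroMulInt.toNNReal_strictMono (e := 2) one_lt_two).monotone
    have h1 := v.map_add x y
    rw [← NNReal.coe_add, NNReal.coe_le_coe]
    rcases le_max_iff.mp h1 with h | h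
    · exact (hmono h).trans (le_add_of_nonneg_right zero_le)
    · exact (hmono h).trans (le_add_of_nonneg_left zero_le)

theorem absOf_le_iff (v : Valuation K ℤᵐ⁰) (x y : K) : absOf v x ≤ absOf v y ↔ v x ≤ v y := by
  show (WithZeroMulInt.toNNReal (e := 2) two_ne_zero (v x) : ℝ) ≤
    (WithZeroMulInt.toNNReal (e := 2) two_ne_zero (v y) : ℝ) ↔ _
  rw [NNReal.coe_le_coe]
  exact (WithZeroMulInt.toNNReal_strictMono (e := 2) one_lt_two).le_iff_le

theorem absOf_lt {v : Valuation K ℤᵐ⁰} {x : K} {c : ℤᵐ⁰}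
    (h : absOf v x < (WithZeroMulInt.toNNReal (e := 2) two_ne_zero c : ℝ)) : v x < c := by
  have h1 : (WithZeroMulInt.toNNReal (e := 2) two_ne_zero (v x) : ℝ) <
    (WithZeroMulInt.toNNReal (e := 2) two_ne_zero c : ℝ) := h
  rw [NNReal.coe_lt_coe] at h1
  exact (WithZeroMulInt.toNNReal_strictMono (e := 2) one_lt_two).lt_iff_lt.mp h1

theorem approx_field {ι : Type} [Finite ι] (v : ι → Valuation K ℤᵐ⁰)
    (hnt : ∀ j, ∃ a : K, v j a ≠ 0 ∧ v j a ≠ 1)
    (hne : ∀ i j, i ≠ j → ¬ (v i).IsEquiv (v j)) (z : ι → K) (c : ι → ℤᵐ⁰) (hc : ∀ j, c j ≠ 0) :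
    ∃ k : K, ∀ j, v j (k - z j) ≤ c j := by
  classical
  have := Fintype.ofFinite ι
  have h1 : ∀ i, (absOf (v i)).IsNontrivial := by
    intro i
    obtain ⟨a, ha0, ha1⟩ := hnt i
    refine ⟨a, (Valuation.ne_zero_iff _).mp ha0, fun h => ha1 ?_⟩
    apply (WithZeroMulInt.toNNReal_strictMono (e := 2) one_lt_two).injective
    rw [map_one]
    exact NNReal.coe_injective h
  have h2 : Pairwise fun i j ↦ ¬(absOf (v i)).IsEquiv (absOf (v j)) := by
    intro i j hij h
    apply hne i j hij
    intro x y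
    rw [← absOf_le_iff, ← absOf_le_iff]
    exact h x y
  obtain ⟨r, hr0, hr⟩ : ∃ r : ℝ, 0 < r ∧
      ∀ j, r ≤ (WithZeroMulInt.toNNReal (e := 2) two_ne_zero (c j) : ℝ) := by
    by_cases hι : Nonempty ι
    · obtain ⟨j₀, hj₀⟩ := Finite.exists_min
        (fun j => (WithZeroMulInt.toNNReal (e := 2) two_ne_zero (c j) : ℝ))
      refine ⟨_, ?_, hj₀⟩
      rw [NNReal.coe_pos]
      exact WithZeroMulInt.toNNReal_pos two_ne_zero (hc j₀)
    · exact ⟨1, one_pos, fun j => absurd ⟨j⟩ hι⟩
  have h3 := AbsoluteValue.denseRange_algebraMap_pi h1 h2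
  obtain ⟨k, hk⟩ := Metric.denseRange_iff.mp h3 (fun i => (WithAbs.equiv _).symm (z i)) r hr0
  refine ⟨k, fun j => ?_⟩
  rw [dist_pi_lt_iff hr0] at hk
  have h4 := hk j
  rw [dist_comm, dist_eq_norm] at h4
  have h5 : (algebraMap K ((i : ι) → WithAbs (absOf (v i))) k j) -
      (WithAbs.equiv (absOf (v j))).symm (z j) = (WithAbs.equiv (absOf (v j))).symm (k - z j) := by
    rw [map_sub]
    rfl
  rw [h5] at h4
  have h6 : absOf (v j) (k - z j) < r := h4
  exact (absOf_lt (h6.trans_le (hr j))).le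

end

end Pool.Agent.WA
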