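import Mathlib
import Pool.Agent.WA.TsenLang
import Pool.Agent.WA.Section

set_option autoImplicit false

/-!
From local sections to a global point.
-/

namespace Pool.Agent.WA

open MvPolynomial WithZero Topology

section

variable {K σ ι : Type} [Field K] [Fintype σ]

/-- The combination map as a linear map in the coefficients. -/
noncomputable def combLin {d : ℕ} (a : σ → K) (w : Fin d → σ → K) :
    (Option (Fin d) → K) →ₗ[K] (σ → K) where
  toFun τ := combE a w (τ none) (fun i => τ (some i))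
  map_add' τ τ' := by
    funext l
    simp only [combE, Pi.add_apply, add_mul, Finset.sum_add_distrib]
    ring
  map_smul' r τ := by
    funext l
    simp only [combE, Pi.smul_apply, smul_eq_mul, RingHom.id_apply, mul_add, Finset.mul_sum,
      mul_assoc]

omit [Fintype σ] in
theorem eval_map_smul {E : Type} [Field E] (φ : K →+* E) {F : MvPolynomial σ K} {d : ℕ}
    (hF : F.IsHomogeneous d) (y : σ → K) (c : E) :
    eval (fun l => c * φ (y l)) (F.map φ) = c ^ d * φ (eval y F) := by
  have h1 : IsForm E d (fun x : σ → E => eval x (F.map φ)) := IsForm.of_mvPolynomial (hF.map φ)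
  have h2 := h1.map_smul c (fun l => φ (y l))
  have h3 : (c • fun l => φ (y l)) = fun l => c * φ (y l) := by
    funext l; simp
  simp only [h3] at h2
  rw [h2, eval_map, eval₂_comp]
  rfl

theorem glue (hC1 : C1 K) (E : ι → Type) [∀ j, Field (E j)] (φ : ∀ j, K →+* E j)
    (V : ∀ j, Valuation (E j) ℤᵐ⁰) (π : ∀ j, E j) (hπ : ∀ j, IsUnif (V j) (π j))
    (hdense : ∀ (e : ∀ j, E j) (c : ι → ℤᵐ⁰), (∀ j, c j ≠ 0) →
      ∃ k : K, ∀ j, V j (φ j k - e j) ≤ c j)
    (F : MvPolynomial σ K) (d : ℕ) (hd : 0 < d) (hF : F.IsHomogeneous d)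
    (x : ∀ j, σ → E j) (θ : ι → ℤᵐ⁰) (hθ : ∀ j, θ j ≠ 0)
    (hloc : ∀ j, ∃ (x' : σ → E j) (u z : Fin d → σ → E j) (c : Fin d → E j),
      FlagData (F.map (φ j)) d x' u z c ∧ ∀ l, V j (x' l - x j l) ≤ θ j) :
    ∃ y : σ → K, eval y F = 0 ∧ ∀ j, ∃ c : E j, c ≠ 0 ∧
      ∀ l, V j (c * φ j (y l) - x j l) ≤ θ j := by
  classical
  choose x' u z c hFD hx' using hloc
  have hB : ∀ j, ∃ B : ℤᵐ⁰, 1 ≤ B ∧ (∀ l, V j (x' j l) ≤ B) ∧ (∀ i l, V j (u j i l) ≤ B) ∧
      (∀ i l, V j (z j i l) ≤ B) := by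
    intro j
    obtain ⟨B₁, h₁⟩ := Finite.exists_le (fun l => V j (x' j l))
    obtain ⟨B₂, h₂⟩ := Finite.exists_le (fun p : Fin d × σ => V j (u j p.1 p.2))
    obtain ⟨B₃, h₃⟩ := Finite.exists_le (fun p : Fin d × σ => V j (z j p.1 p.2))
    refine ⟨max 1 (max B₁ (max B₂ B₃)), le_max_left _ _, fun l => ?_, fun i l => ?_,
      fun i l => ?_⟩
    · exact (h₁ l).trans ((le_max_left _ _).trans (le_max_right _ _))
    · exact (h₂ (i, l)).trans ((le_max_left _ _).trans
        ((le_max_right _ _).trans (le_max_right _ _)))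
    · exact (h₃ (i, l)).trans ((le_max_right _ _).trans
        ((le_max_right _ _).trans (le_max_right _ _)))
  choose B hB1 hBx hBu hBz using hB
  have hθ' : ∀ j, ∃ θ' : ℤᵐ⁰, θ' ≠ 0 ∧ θ' < 1 ∧ θ' * B j ≤ θ j := by
    intro j
    obtain ⟨N, hN⟩ := exists_mul_pow_le_one (hπ j).ne_zero (hπ j).lt_one (B j * (θ j)⁻¹)
    refine ⟨V j (π j) ^ (N + 1), pow_ne_zero _ (hπ j).ne_zero,
      pow_lt_one' (hπ j).lt_one (Nat.succ_ne_zero N), ?_⟩
    have h := hN (N + 1) (by omega)
    calc V j (π j) ^ (N + 1) * B j = (B j * (θ j)⁻¹ * V j (π j) ^ (N + 1)) * θ j := by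
          rw [mul_right_comm, inv_mul_cancel_right₀ (hθ j), mul_comm]
      _ ≤ 1 * θ j := mul_le_mul' h le_rfl
      _ = θ j := one_mul _
  choose θ' hθ'0 hθ'1 hθ'B using hθ'
  have hconc := fun j => (hFD j).concentrated (Nat.succ_le_of_lt hd) (hπ j) (hB1 j) (hBx j)
    (hBu j) (hBz j) (hθ'0 j)
  choose w ρ hρ0 hρ1 hwB hconc using hconc
  have hmin : ∀ j, min (ρ j) (θ j) ≠ 0 := by
    intro j
    rcases min_choice (ρ j) (θ j) with h | h <;> rw [h]
    · exact hρ0 j
    · exact hθ j
  choose a ha using fun l => hdense (fun j => x' j l) (fun j => min (ρ j) (θ j)) hmin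
  choose W hW using fun (i : Fin d) (l : σ) => hdense (fun j => w j i l)
    (fun j => min (ρ j) (θ j)) hmin
  obtain ⟨τ, hτ0, hτ⟩ := hC1 (Option (Fin d)) Unit (fun _ τ => eval (combLin a W τ) F)
    (fun _ => d) (fun _ => hd) (fun _ => (IsForm.of_mvPolynomial hF).comp (combLin a W))
    (by simp)
  have hτ' : eval (combLin a W τ) F = 0 := hτ ()
  have hmain : ∀ j, φ j (τ none) ≠ 0 ∧ ∀ i, V j (φ j (τ (some i)) / φ j (τ none)) ≤ θ' j := by
    intro j
    obtain ⟨o, ho⟩ := Finite.exists_max (fun o => V j (φ j (τ o)))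
    have hκ : φ j (τ o) ≠ 0 := by
      intro h
      apply hτ0
      funext o'
      have h1 := ho o'
      simp only [h, map_zero, le_zero_iff, Valuation.zero_iff] at h1
      exact (map_eq_zero (φ j)).mp h1
    have hκV : V j (φ j (τ o)) ≠ 0 := (Valuation.ne_zero_iff _).mpr hκ
    have hle : ∀ o', V j (φ j (τ o') / φ j (τ o)) ≤ 1 := by
      intro o'
      rw [map_div₀, div_le_one₀ (zero_lt_iff.mpr hκV)]
      exact ho o'
    have hev : eval (combE (fun l => φ j (a l)) (fun i l => φ j (W i l))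
        (φ j (τ none) / φ j (τ o)) (fun i => φ j (τ (some i)) / φ j (τ o))) (F.map (φ j)) = 0 := by
      have h1 := eval_map_smul (φ j) hF (combLin a W τ) (φ j (τ o))⁻¹
      rw [hτ', map_zero, mul_zero] at h1
      rw [← h1]
      congr 2
      funext l
      show _ = (φ j (τ o))⁻¹ * φ j (combE a W (τ none) (fun i => τ (some i)) l)
      simp only [combE, map_add, map_mul, map_sum, mul_add, Finset.mul_sum]
      congr 1
      · ring
      · apply Finset.sum_congr rfl
        intro i _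
        ring
    have hsmall := hconc j (fun l => φ j (a l)) (fun i l => φ j (W i l))
      (fun l => (ha l j).trans (min_le_left _ _)) (fun i l => (hW i l j).trans (min_le_left _ _))
      _ _ (hle none) (fun i => hle (some i)) hev
    cases o with
    | none => exact ⟨hκ, hsmall⟩
    | some i =>
      exfalso
      have h1 := hsmall i
      simp only [div_self hκ, map_one] at h1
      exact absurd h1 (not_le.mpr (hθ'1 j))
  refine ⟨combLin a W τ, hτ', fun j => ⟨(φ j (τ none))⁻¹, inv_ne_zero (hmain j).1, fun l => ?_⟩⟩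
  have e : (φ j (τ none))⁻¹ * φ j (combLin a W τ l) - x j l =
      (φ j (a l) - x' j l) + (x' j l - x j l) +
        ∑ i, (φ j (τ (some i)) / φ j (τ none)) * φ j (W i l) := by
    have h1 : combLin a W τ l = τ none * a l + ∑ i, τ (some i) * W i l := rfl
    rw [h1, map_add, map_mul, map_sum, mul_add, ← mul_assoc, inv_mul_cancel₀ (hmain j).1,
      Finset.mul_sum]
    have h2 : ∀ i, (φ j (τ none))⁻¹ * φ j (τ (some i) * W i l) =
        (φ j (τ (some i)) / φ j (τ none)) * φ j (W i l) := by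
      intro i
      rw [map_mul]
      ring
    simp_rw [h2]
    ring
  rw [e]
  refine (V j).map_add_le ((V j).map_add_le ((ha l j).trans (min_le_right _ _)) (hx' j l))
    ((V j).map_sum_le fun i _ => ?_)
  rw [map_mul]
  have hWB : V j (φ j (W i l)) ≤ B j := by
    have e1 : φ j (W i l) = (φ j (W i l) - w j i l) + w j i l := by ring
    rw [e1]
    exact (V j).map_add_le (((hW i l j).trans (min_le_left _ _)).trans
      ((hρ1 j).trans (hB1 j))) (hwB j i l)
  exact (mul_le_mul' ((hmain j).2 i) hWB).trans (hθ'B j)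

end

end Pool.Agent.WA
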