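import Mathlib
import Pool.Agent.WA.KeyStep
import Pool.Agent.WA.Newton

set_option autoImplicit false

/-!
Smoothness over an algebraic closure implies smoothness over all extensions, and uniformisers.
-/

namespace Pool.Agent.WA

open MvPolynomial WithZero Topology

theorem smoothForm_of_algebraicClosure {K σ : Type} [Field K] [Finite σ] {F : MvPolynomial σ K}
    (h : ∀ x : σ → AlgebraicClosure K, x ≠ 0 → aeval x F = 0 → ∃ i, aeval x (pderiv i F) ≠ 0) :
    SmoothForm F := by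
  intro L _ _ x hx hd
  let I : Ideal (MvPolynomial σ K) := Ideal.span ({F} ∪ Set.range fun i => pderiv i F)
  have hFI : F ∈ I := Ideal.subset_span (Or.inl rfl)
  have hdI : ∀ i, pderiv i F ∈ I := fun i => Ideal.subset_span (Or.inr ⟨i, rfl⟩)
  have h1 : ∀ j : σ, (X j : MvPolynomial σ K) ∈ I.radical := by
    intro j
    rw [← vanishingIdeal_zeroLocus_eq_radical (K := AlgebraicClosure K) I, mem_vanishingIdeal_iff]
    intro y hy
    have hy0 : y = 0 := by
      by_contra hne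
      obtain ⟨i, hi⟩ := h y hne (hy F hFI)
      exact hi (hy _ (hdI i))
    rw [hy0]
    simp
  have h2 : ∀ p ∈ I, aeval x p = 0 := by
    have h3 : I ≤ RingHom.ker (aeval x : MvPolynomial σ K →ₐ[K] L) := by
      rw [Ideal.span_le]
      rintro p (hp | ⟨i, rfl⟩)
      · rw [Set.mem_singleton_iff.mp hp]
        exact hx
      · exact hd i
    exact fun p hp => h3 hp
  funext j
  obtain ⟨N, hN⟩ := h1 j
  have h4 := h2 _ hN
  rw [map_pow, aeval_X] at h4
  exact pow_eq_zero_iff (n := N) (by rintro rfl; simp at h4) |>.mp h4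

theorem exists_isUnif {K : Type} [Field K] (v : Valuation K ℤᵐ⁰)
    (h : ∃ a : K, v a ≠ 0 ∧ v a ≠ 1) : ∃ π : K, IsUnif v π := by
  let H : AddSubgroup ℤ :=
    { carrier := {n | ∃ y : K, v y = exp n}
      zero_mem' := ⟨1, by simp⟩
      add_mem' := by
        rintro a b ⟨y, hy⟩ ⟨z, hz⟩
        exact ⟨y * z, by rw [map_mul, hy, hz, exp_add]⟩
      neg_mem' := by
        rintro a ⟨y, hy⟩
        exact ⟨y⁻¹, by rw [map_inv₀, hy, exp_neg]⟩ }
  obtain ⟨a, ha⟩ := Int.subgroup_cyclic H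
  have hmem : ∀ n : ℤ, n ∈ H ↔ ∃ k : ℤ, k * a = n := by
    intro n
    rw [ha, AddSubgroup.mem_closure_singleton]
    simp
  have ha0 : a ≠ 0 := by
    rintro rfl
    obtain ⟨b, hb0, hb1⟩ := h
    have h1 : log (v b) ∈ H := ⟨b, (exp_log hb0).symm⟩
    obtain ⟨k, hk⟩ := (hmem _).mp h1
    apply hb1
    rw [← exp_log hb0, ← hk, mul_zero, exp_zero]
  have h2 : -|a| ∈ H := by
    rw [hmem]
    rcases abs_choice a with h | h
    · exact ⟨-1, by rw [h]; ring⟩
    · exact ⟨1, by rw [h]; ring⟩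
  obtain ⟨π, hπ⟩ := h2
  refine ⟨π, ?_, ?_, ?_⟩
  · rw [hπ]
    exact exp_ne_zero
  · rw [hπ, ← exp_zero, exp_lt_exp]
    have := abs_pos.mpr ha0
    omega
  · intro y hy
    have hy' : v y ≠ 0 := (Valuation.ne_zero_iff _).mpr hy
    have h1 : log (v y) ∈ H := ⟨y, (exp_log hy').symm⟩
    obtain ⟨k, hk⟩ := (hmem _).mp h1
    rcases abs_choice a with h | h
    · refine ⟨-k, ?_⟩
      rw [hπ, ← exp_zsmul, h, ← exp_log hy', ← hk]
      congr 1
      simp
    · refine ⟨k, ?_⟩
      rw [hπ, ← exp_zsmul, h, ← exp_log hy', ← hk]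
      congr 1
      simp

end Pool.Agent.WA
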