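import Mathlib
import Pool.Agent.WA.Local
import Pool.Agent.WA.Glue
import Pool.Agent.WA.Density
import Pool.Agent.WA.Smooth

set_option autoImplicit false

/-!
Weak approximation for smooth hypersurfaces over fields with the Tsen-Lang property.
-/

namespace Pool.Agent.WA

open MvPolynomial WithZero Topology

section

variable {K : Type} [Field K]

/-- The completion of `K` for the valuation `v`. -/
abbrev Compl (v : Valuation K ℤᵐ⁰) : Type := UniformSpace.Completion (WithVal v)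

/-- The canonical embedding of `K` in a completion. -/
noncomputable def emb (v : Valuation K ℤᵐ⁰) : K →+* Compl v :=
  (UniformSpace.Completion.coeRingHom : WithVal v →+* _).comp (WithVal.equiv v).symm.toRingHom

theorem val_emb (v : Valuation K ℤᵐ⁰) (x : K) :
    (Valued.v : Valuation (Compl v) ℤᵐ⁰) (emb v x) = v x := by
  show (Valued.v : Valuation (Compl v) ℤᵐ⁰) ((WithVal.toVal v x : WithVal v) : Compl v) = v x
  rw [Valued.valuedCompletion_apply]
  rfl

theorem isUnif_emb {v : Valuation K ℤᵐ⁰} {π : K} (hπ : IsUnif v π) :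
    IsUnif (Valued.v : Valuation (Compl v) ℤᵐ⁰) (emb v π) := by
  refine ⟨?_, ?_, ?_⟩
  · rw [val_emb]; exact hπ.ne_zero
  · rw [val_emb]; exact hπ.lt_one
  · intro y hy
    obtain ⟨r, hr⟩ := Valued.exists_coe_eq_v y
    have h1 : (Valued.v : Valuation (Compl v) ℤᵐ⁰) y = v r.ofVal := hr
    have hr0 : r.ofVal ≠ 0 := by
      intro h
      rw [h, map_zero] at h1
      exact (Valuation.ne_zero_iff _).mpr hy h1
    obtain ⟨m, hm⟩ := hπ.gen _ hr0
    exact ⟨m, by rw [h1, hm, val_emb]⟩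

theorem dense_emb {v : Valuation K ℤᵐ⁰} {π : K} (hπ : IsUnif v π) (e : Compl v) (c : ℤᵐ⁰)
    (hc : c ≠ 0) : ∃ k : K, (Valued.v : Valuation (Compl v) ℤᵐ⁰) (emb v k - e) ≤ c := by
  have h1 := ball_mem_nhds (isUnif_emb hπ) e hc
  have h2 : e ∈ closure (Set.range ((↑) : WithVal v → Compl v)) :=
    UniformSpace.Completion.denseRange_coe e
  obtain ⟨_, h3, ⟨k, rfl⟩⟩ := mem_closure_iff_nhds.mp h2 _ h1
  exact ⟨k.ofVal, h3⟩

theorem dense_emb_pi {ι : Type} [Finite ι] (v : ι → Valuation K ℤᵐ⁰)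
    (hnt : ∀ j, ∃ a : K, v j a ≠ 0 ∧ v j a ≠ 1)
    (hne : ∀ i j, i ≠ j → ¬ (v i).IsEquiv (v j)) (e : ∀ j, Compl (v j)) (c : ι → ℤᵐ⁰)
    (hc : ∀ j, c j ≠ 0) :
    ∃ k : K, ∀ j, (Valued.v : Valuation (Compl (v j)) ℤᵐ⁰) (emb (v j) k - e j) ≤ c j := by
  choose π hπ using fun j => exists_isUnif (v j) (hnt j)
  choose z hz using fun j => dense_emb (hπ j) (e j) (c j) (hc j)
  obtain ⟨k, hk⟩ := approx_field v hnt hne z c hc
  refine ⟨k, fun j => ?_⟩
  have h1 : emb (v j) k - e j = emb (v j) (k - z j) + (emb (v j) (z j) - e j) := by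
    rw [map_sub]; ring
  rw [h1]
  refine Valuation.map_add_le _ ?_ (hz j)
  rw [val_emb]
  exact hk j

theorem exists_ball_subset_pi {σ : Type} [Finite σ] {v : Valuation K ℤᵐ⁰} {π : K}
    (hπ : IsUnif v π) {x : σ → Compl v} {U : Set (σ → Compl v)} (hU : U ∈ 𝓝 x) :
    ∃ c : ℤᵐ⁰, c ≠ 0 ∧ ∀ y : σ → Compl v,
      (∀ l, (Valued.v : Valuation (Compl v) ℤᵐ⁰) (y l - x l) ≤ c) → y ∈ U := by
  classical
  rw [nhds_pi, Filter.mem_pi] at hU
  obtain ⟨I, _, t, ht, htU⟩ := hU
  choose c hc0 hc using fun l => exists_ball_subset (isUnif_emb hπ) (ht l)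
  by_cases hσ : Nonempty σ
  · obtain ⟨l₀, hl₀⟩ := Finite.exists_min c
    refine ⟨c l₀, hc0 l₀, fun y hy => htU ?_⟩
    intro l _
    exact hc l ((hy l).trans (hl₀ l))
  · refine ⟨1, one_ne_zero, fun y _ => htU ?_⟩
    intro l _
    exact absurd ⟨l⟩ hσ

theorem weak_approximation (hC1 : C1 K) [Infinite K] (n d : ℕ) (F : MvPolynomial (Fin (n + 1)) K)
    (hd : 1 ≤ d) (hn : (2 * d).choose (d + 1) + (2 * d - 1).choose d ≤ n)
    (hF : F.IsHomogeneous d)
    (hsm : ∀ x : Fin (n + 1) → AlgebraicClosure K, x ≠ 0 → aeval x F = 0 →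
      ∃ i, aeval x (pderiv i F) ≠ 0)
    (m : ℕ) (v : Fin m → Valuation K ℤᵐ⁰) (hnt : ∀ j, ∃ a : K, v j a ≠ 0 ∧ v j a ≠ 1)
    (hne : ∀ i j, i ≠ j → ¬ (v i).IsEquiv (v j))
    (x : ∀ j, Fin (n + 1) → Compl (v j))
    (hx : ∀ j, x j ≠ 0 ∧ eval₂ (emb (v j)) (x j) F = 0)
    (U : ∀ j, Set (Fin (n + 1) → Compl (v j))) (hU : ∀ j, IsOpen (U j) ∧ x j ∈ U j) :
    ∃ y : Fin (n + 1) → K, y ≠ 0 ∧ eval y F = 0 ∧
      ∀ j, ∃ c : Compl (v j), c ≠ 0 ∧ (fun i => c * emb (v j) (y i)) ∈ U j := by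
  classical
  have hsm' : SmoothForm F := smoothForm_of_algebraicClosure hsm
  by_cases hm : m = 0
  · subst hm
    have hdn : d < n + 1 := by
      rcases Nat.lt_or_ge d 2 with h | h
      · have : d = 1 := by omega
        subst this
        norm_num at hn
        omega
      · have h1 : (d + 2).choose (d + 1) ≤ (2 * d).choose (d + 1) :=
          Nat.choose_le_choose _ (by omega)
        have h2 : (d + 2).choose (d + 1) = d + 2 := by
          rw [Nat.choose_succ_self_right]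
        omega
    obtain ⟨y, hy0, hy⟩ := hC1 (Fin (n + 1)) Unit (fun _ y => eval y F) (fun _ => d)
      (fun _ => hd) (fun _ => IsForm.of_mvPolynomial hF) (by simpa using hdn)
    exact ⟨y, hy0, hy (), fun j => j.elim0⟩
  have hpos : 0 < m := Nat.pos_of_ne_zero hm
  choose π hπ using fun j => exists_isUnif (v j) (hnt j)
  choose c hc0 hc using fun j => exists_ball_subset_pi (hπ j) ((hU j).1.mem_nhds (hU j).2)
  have hl : ∀ j, ∃ l, x j l ≠ 0 := by
    intro j
    by_contra h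
    simp only [not_exists, not_not] at h
    exact (hx j).1 (funext h)
  choose l hl using hl
  let V : ∀ j, Valuation (Compl (v j)) ℤᵐ⁰ := fun j => Valued.v
  let θ : Fin m → ℤᵐ⁰ := fun j => min (c j) (V j (emb (v j) (π j)) * V j (x j (l j)))
  have hxl : ∀ j, V j (x j (l j)) ≠ 0 := fun j => (Valuation.ne_zero_iff _).mpr (hl j)
  have hθ0 : ∀ j, θ j ≠ 0 := by
    intro j
    rcases min_choice (c j) (V j (emb (v j) (π j)) * V j (x j (l j))) with h | h
    · show min _ _ ≠ 0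
      rw [h]
      exact hc0 j
    · show min _ _ ≠ 0
      rw [h]
      exact mul_ne_zero (isUnif_emb (hπ j)).ne_zero (hxl j)
  have hθc : ∀ j, θ j ≤ c j := fun j => min_le_left _ _
  have hθx : ∀ j, θ j < V j (x j (l j)) := by
    intro j
    refine lt_of_le_of_lt (min_le_right _ _) ?_
    calc V j (emb (v j) (π j)) * V j (x j (l j)) < 1 * V j (x j (l j)) := by
          rw [mul_lt_mul_iff_left₀ (zero_lt_iff.mpr (hxl j))]
          exact (isUnif_emb (hπ j)).lt_one
      _ = V j (x j (l j)) := one_mul _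
  have hloc : ∀ j, ∃ (x' : Fin (n + 1) → Compl (v j)) (u z : Fin d → Fin (n + 1) → Compl (v j))
      (b : Fin d → Compl (v j)), FlagData (F.map (emb (v j))) d x' u z b ∧
        ∀ l, V j (x' l - x j l) ≤ θ j := by
    intro j
    let _ : Algebra K (Compl (v j)) := (emb (v j)).toAlgebra
    exact exists_flagData hC1 (isUnif_emb (hπ j)) (dense_emb (hπ j)) F d hd hF hsm'
      (by simpa using Nat.succ_le_succ hn) (x j) (hx j).1
      (by
        show eval (x j) (F.map (emb (v j))) = 0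
        rw [eval_map]
        exact (hx j).2) (hθ0 j)
  obtain ⟨y, hy, hyV⟩ := @glue K (Fin (n + 1)) (Fin m) _ _ hC1 (fun j => Compl (v j))
    (fun j => inferInstanceAs (Field (UniformSpace.Completion (WithVal (v j)))))
    (fun j => emb (v j)) V
    (fun j => emb (v j) (π j)) (fun j => isUnif_emb (hπ j)) (dense_emb_pi v hnt hne) F d hd hF x
    θ hθ0 hloc
  refine ⟨y, ?_, hy, fun j => ?_⟩
  · rintro rfl
    obtain ⟨b, _, hb⟩ := hyV ⟨0, hpos⟩
    have h1 := hb (l ⟨0, hpos⟩)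
    rw [Pi.zero_apply, map_zero, mul_zero, zero_sub, Valuation.map_neg] at h1
    exact absurd h1 (not_le.mpr (hθx _))
  · obtain ⟨b, hb0, hb⟩ := hyV j
    exact ⟨b, hb0, hc j _ (fun l => (hb l).trans (hθc j))⟩

end

end Pool.Agent.WA
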